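import Pool.Agent.Y320.ST.Fin
import Pool.Agent.Y320.CM.Main2
import Pool.Agent.Y948.ST.Dich
import Pool.Agent.Y165.ST.Act2

set_option autoImplicit false
open Filter Topology MeasureTheory Metric Set

namespace Pool.Agent.Y320.ST
open Pool.Agent.Y320.CM

theorem psl_of_F {G : Type} [Group G] {τ : G → Sph → Sph} (hA : Act G τ)
    (htf : ∀ g : G, g ≠ 1 → orderOf g = 0) (F : Sph → Sph) (hc : Continuous F)
    (hb : Function.Bijective F) (hI : InvC G τ F) : IsUniformLatticePSL2C G := by
  have hrel := Pool.Agent.Y369.CM.spin G τ hA.one hA.mul F hb.1 hI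
  obtain ⟨Γ, χ, h1, h2, h3, h4⟩ := Pool.Agent.Y48.CM.psla G τ hA htf F hb hrel
  refine ⟨Γ, χ, h3, h4, ?_, ?_⟩
  · exact Pool.Agent.Y944.CM.pslb G τ hA F hc hb Γ (fun A hA' => (h2 A).1 hA')
  · refine Pool.Agent.Y944.CM.pslc G τ hA F hc hb Γ (fun g => ?_)
    obtain ⟨A, hAr⟩ := hrel g
    exact ⟨A, (h2 A).2 ⟨g, hAr⟩, hAr⟩

/-- `G` or a subgroup of index two of `G` is a uniform lattice in `PSL(2, ℂ)` -/
def IsVirtuallyUniformLattice (G : Type) [Group G] : Prop :=
  IsUniformLatticePSL2C G ∨ ∃ H : Subgroup G, H.index = 2 ∧ IsUniformLatticePSL2C H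

theorem psl_index_two {G : Type} [Group G] {τ : G → Sph → Sph} (hA : Act G τ)
    (htf : ∀ g : G, g ≠ 1 → orderOf g = 0) (F : Sph → Sph) (hc : Continuous F)
    (hb : Function.Bijective F) (hI : Inv G τ F) : IsVirtuallyUniformLattice G := by
  classical
  have hti := tau_inj hA
  -- the two types
  have hdich : ∀ g : G, (∀ a b c e : Sph, D4 a b c e →
      chi (F (τ g a)) (F (τ g b)) (F (τ g c)) (F (τ g e)) = chi (F a) (F b) (F c) (F e)) ∨
      (∀ a b c e : Sph, D4 a b c e →
      chi (F (τ g a)) (F (τ g b)) (F (τ g c)) (F (τ g e)) =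
        (starRingEnd ℂ) (chi (F a) (F b) (F c) (F e))) := by
    intro g
    let E := Equiv.ofBijective F hb
    have hE : ∀ x, F (E.symm x) = x := fun x => E.apply_symm_apply x
    have hE' : ∀ x, E.symm (F x) = x := fun x => E.symm_apply_apply x
    have h := Pool.Agent.Y948.ST.t_DICH (fun x => F (τ g (E.symm x)))
      (fun x y hxy => E.symm.injective (hti g (hb.1 hxy))) (by
        intro a b c e hD
        have hD' : D4 (E.symm a) (E.symm b) (E.symm c) (E.symm e) :=
          D4_inj hD E.symm E.symm.injective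
        have := hI g _ _ _ _ hD'
        rw [hE, hE, hE, hE] at this
        exact this)
    rcases h with h | h
    · left
      intro a b c e hD
      have := h (F a) (F b) (F c) (F e) (D4_inj hD F hb.1)
      simpa only [hE'] using this
    · right
      intro a b c e hD
      have := h (F a) (F b) (F c) (F e) (D4_inj hD F hb.1)
      simpa only [hE'] using this
  let P : G → Prop := fun g => ∀ a b c e : Sph, D4 a b c e →
      chi (F (τ g a)) (F (τ g b)) (F (τ g c)) (F (τ g e)) = chi (F a) (F b) (F c) (F e)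
  let H : Subgroup G :=
    { carrier := {g | P g}
      one_mem' := by
        intro a b c e _
        rw [hA.one, hA.one, hA.one, hA.one]
      mul_mem' := by
        intro g h hg hh a b c e hD
        rw [hA.mul, hA.mul, hA.mul, hA.mul, hg _ _ _ _ (D4_inj hD (τ h) (hti h)), hh _ _ _ _ hD]
      inv_mem' := by
        intro g hg a b c e hD
        have := hg _ _ _ _ (D4_inj hD (τ g⁻¹) (hti g⁻¹))
        rw [← hA.mul, ← hA.mul, ← hA.mul, ← hA.mul, mul_inv_cancel, hA.one, hA.one, hA.one,
          hA.one] at this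
        exact this.symm }
  by_cases hall : ∀ g, g ∈ H
  · left
    exact psl_of_F hA htf F hc hb (fun g a b c e hD => hall g a b c e hD)
  · right
    push Not at hall
    obtain ⟨g0, hg0⟩ := hall
    have hconj : ∀ g, g ∉ H → ∀ a b c e : Sph, D4 a b c e →
        chi (F (τ g a)) (F (τ g b)) (F (τ g c)) (F (τ g e)) =
          (starRingEnd ℂ) (chi (F a) (F b) (F c) (F e)) :=
      fun g hg => (hdich g).resolve_left hg
    have hidx : H.index = 2 := by
      rw [Subgroup.index_eq_two_iff]
      refine ⟨g0, fun b => ?_⟩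
      by_cases hbH : b ∈ H
      · right
        refine ⟨hbH, fun hmul => hg0 ?_⟩
        have := H.mul_mem (H.inv_mem hbH) hmul
        rwa [inv_mul_cancel_left] at this
      · left
        refine ⟨?_, hbH⟩
        intro p q r s hD
        rw [hA.mul, hA.mul, hA.mul, hA.mul,
          hconj b hbH _ _ _ _ (D4_inj hD (τ g0) (hti g0)), hconj g0 hg0 _ _ _ _ hD,
          Complex.conj_conj]
    refine ⟨H, hidx, ?_⟩
    refine psl_of_F (Pool.Agent.Y165.ST.act2 G τ hA H hidx) ?_ F hc hb ?_
    · intro g hg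
      have h1 : (g : G) ≠ 1 := fun h => hg (Subtype.ext h)
      have := htf (g : G) h1
      rwa [Subgroup.orderOf_coe] at this
    · intro g a b c e hD
      exact g.2 a b c e hD

theorem psl_of_finB {G : Type} [Group G] {τ : G → Sph → Sph} (hA : Act G τ) (hC : Cvg τ)
    (htf : ∀ g : G, g ≠ 1 → orderOf g = 0)
    (U : Set Sph) (hU : IsOpen U) (hne : U.Nonempty) (N : ℝ → ℝ) (hN : FinB τ U N) :
    IsVirtuallyUniformLattice G := by
  obtain ⟨F, hc, hi, N', hG, hQ⟩ := qm_of_finB hA hC U hU hne N hN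
  obtain ⟨E, hE⟩ := exists_homeo F hc hi
  have hA' := Pool.Agent.Y708.ST.t_TRANS G τ hA E
  obtain ⟨l, ψ, hl, hψ⟩ := sullivanTukia G (fun g x => E (τ g (E.symm x))) hA' N' hG (by
    intro g a b c e hD t ht
    have hD' : D4 (E.symm a) (E.symm b) (E.symm c) (E.symm e) :=
      D4_inj hD E.symm E.symm.injective
    have := hQ g _ _ _ _ hD' t (by
      rw [← hE, ← hE, ← hE, ← hE]
      simpa only [Homeomorph.apply_symm_apply] using ht)
    simpa only [← hE] using this)
  obtain ⟨F', ρ, s, hc', hb', hI', -⟩ := rep_of_coord hA' Set.univ isOpen_univ ⟨inf, trivial⟩ l ψ hψ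
  exact psl_index_two hA' htf F' hc' hb' hI'

end Pool.Agent.Y320.ST
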