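import Pool.Agent.Y320.ST.Geo
import Pool.Agent.Y692.ST.STB
import Pool.Agent.Y983.ST.Rot
import Pool.Agent.Y448.ST.Eqc
import Pool.Agent.Y434.ST.Ext
import Pool.Agent.Y839.ST.Limit
import Pool.Agent.Y141.ST.NZ
import Pool.Agent.Y51.ST2.Fat
import Pool.Agent.Y51.ST2.Cousin
import Pool.Agent.Y445.ST.Mor
import Pool.Agent.Y51.ST2.Morera
import Pool.Agent.Y941.ST.Aff
import Pool.Agent.Y302.ST.Nearc
import Pool.Agent.Y708.ST.Sg
import Pool.Agent.Y925.ST.Core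
import Pool.Agent.Y852.ST.Str
import Pool.Agent.Y100.ST.Leb
import Pool.Agent.Y328.ST.Blow
import Pool.Agent.Y43.ST.Onept
import Pool.Agent.Y438.ST.Cvg

set_option autoImplicit false
open Filter Topology MeasureTheory Metric Set

namespace Pool.Agent.Y320.ST
open Pool.Agent.Y320.CM

theorem st_all (hD : S_DIFF) (hSg : S_SGN) : S_ST := by
  have hS := Pool.Agent.Y692.ST.stb
  have hR := Pool.Agent.Y983.ST.s_rot hS
  have hRR := Pool.Agent.Y983.ST.s_rotr hS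
  have hE := Pool.Agent.Y448.ST.eqc
  have hP := Pool.Agent.Y448.ST.sepq
  have hX := Pool.Agent.Y434.ST.t_EXT hS
  have hQ := Pool.Agent.Y434.ST.t_SQRT
  have hL := Pool.Agent.Y839.ST.s_limit hS hE hP
  have hM := Pool.Agent.Y445.ST.mor Pool.Agent.Y51.ST2.t_FAT Pool.Agent.Y51.ST2.t_COUSIN
  have hNZ := Pool.Agent.Y141.ST.nz hD hM
  have hG := Pool.Agent.Y708.ST.t_SGNS hS hR hSg
  have hC := Pool.Agent.Y925.ST.main hS hR hRR hL hM Pool.Agent.Y51.ST2.t_MORERA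
    Pool.Agent.Y941.ST.aff Pool.Agent.Y302.ST.nearc
  have hT := Pool.Agent.Y852.ST.str hS hR hD hNZ Pool.Agent.Y708.ST.t_CTB
  have hB := Pool.Agent.Y328.ST.blow hS hT Pool.Agent.Y100.ST.leb hQ
  exact st_main hS hX hP hB hG hC

end Pool.Agent.Y320.ST
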