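import Pool.Agent.Y320.ST.Stm
import Pool.Agent.Y320.CM.AM

set_option autoImplicit false
open Filter Topology MeasureTheory Metric

namespace Pool.Agent.Y320.ST
open Pool.Agent.Y320.CM

theorem D4_inj {a b c e : Sph} (h : D4 a b c e) (f : Sph → Sph) (hf : Function.Injective f) :
    D4 (f a) (f b) (f c) (f e) :=
  D4_map h f Set.univ hf.injOn trivial trivial trivial trivial

theorem QM.comp {N1 N2 : ℝ → ℝ} {f g : Sph → Sph} (hf : QM N1 f) (hg : QM N2 g)
    (hi : Function.Injective g) : QM (fun t => N1 (N2 t)) (fun x => f (g x)) := by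
  intro a b c e hD t ht
  exact hf _ _ _ _ (D4_inj hD g hi) _ (hg a b c e hD t ht)

theorem cr_swap (a b c e : Sph) : cr a c b e = (cr a b c e)⁻¹ := by
  unfold cr
  rw [inv_div]

theorem Norm3.mono {c c' : ℝ} (h : c' ≤ c) {f : Sph → Sph} (hf : Norm3 c f) : Norm3 c' f := by
  obtain ⟨a1, a2, a3, h1, h2, h3, h4, h5, h6⟩ := hf
  exact ⟨a1, a2, a3, h.trans h1, h.trans h2, h.trans h3, h.trans h4, h.trans h5, h.trans h6⟩

theorem exists_three : ∃ s1 s2 s3 : Sph, s1 ≠ s2 ∧ s1 ≠ s3 ∧ s2 ≠ s3 := by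
  obtain ⟨s, hs⟩ := Infinite.exists_subset_card_eq Sph 3
  obtain ⟨x, y, z, h1, h2, h3, -⟩ := Finset.card_eq_three.1 hs
  exact ⟨x, y, z, h1, h2, h3⟩

theorem st_main (hS : S_STB) (hE : S_EXT) (hP : S_SEPQ) (hB : S_BLOW) (hG : S_SGNS)
    (hC : S_CORE) : S_ST := by
  intro G _ τ hA N hN hQ
  obtain ⟨L, x, hblow⟩ := hB G τ hA N hQ
  obtain ⟨K, hK, hEx⟩ := hE L
  have hK0 : 0 < K := by linarith
  choose A hAinf hAsg hAQ hAQ' using fun n : ℕ => hEx x (1 / ((n : ℝ) + 1)) (by positivity)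
  obtain ⟨c0, hc0, hcoc⟩ := hA.coc
  have h01 : sg 0 ≠ sg 1 := by
    intro h
    have := congrArg st h
    rw [hS.1, hS.1] at this
    exact zero_ne_one this
  have hne : ∀ n, (A n).symm (sg 0) ≠ (A n).symm (sg 1) ∧ (A n).symm (sg 0) ≠ (A n).symm inf ∧
      (A n).symm (sg 1) ≠ (A n).symm inf := fun n =>
    ⟨fun h => h01 ((A n).symm.injective h), fun h => hS.2.2.1 _ ((A n).symm.injective h),
      fun h => hS.2.2.1 _ ((A n).symm.injective h)⟩
  choose γ hγ1 hγ2 hγ3 using fun n => hcoc _ _ _ (hne n).1 (hne n).2.1 (hne n).2.2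
  set ψ : ℕ → Sph → Sph := fun n p => A n (τ (γ n)⁻¹ p) with hψ
  have hback : ∀ n p, ψ n (τ (γ n) ((A n).symm p)) = p := by
    intro n p
    simp only [hψ]
    rw [← hA.mul, inv_mul_cancel, hA.one, (A n).apply_symm_apply]
  have hψi : ∀ n, Function.Injective (ψ n) := fun n p q h =>
    tau_inj hA _ ((A n).injective h)
  -- quasi-Moebius
  set N1 : ℝ → ℝ := fun t => K * N t with hN1
  have hN1G : Gauge N1 := by
    intro T hT
    obtain ⟨t, ht, h⟩ := hN (T / K) (by positivity)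
    refine ⟨t, ht, ?_⟩
    have := mul_le_mul_of_nonneg_left h hK0.le
    rwa [mul_div_cancel₀ _ hK0.ne'] at this
  have hψQ : ∀ n, QM N1 (ψ n) := fun n => (hAQ n).comp (hQ _) (tau_inj hA _)
  -- normalisation
  set c1 : ℝ := min c0 (min (dist (sg 0) (sg 1)) (min (dist (sg 0) inf) (dist (sg 1) inf)))
    with hc1
  have hc1p : 0 < c1 := lt_min hc0 (lt_min (dist_pos.2 h01) (lt_min (dist_pos.2 (hS.2.2.1 _))
    (dist_pos.2 (hS.2.2.1 _))))
  have hψ3 : ∀ n, Norm3 c1 (ψ n) := by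
    intro n
    refine ⟨_, _, _, (min_le_left _ _).trans (hγ1 n), (min_le_left _ _).trans (hγ2 n),
      (min_le_left _ _).trans (hγ3 n), ?_, ?_, ?_⟩
    · rw [hback, hback]
      exact (min_le_right _ _).trans (min_le_left _ _)
    · rw [hback, hback]
      exact (min_le_right _ _).trans ((min_le_right _ _).trans (min_le_left _ _))
    · rw [hback, hback]
      exact (min_le_right _ _).trans ((min_le_right _ _).trans (min_le_right _ _))
  have hsep : ∀ ε : ℝ, 0 < ε → ∃ δ : ℝ, 0 < δ ∧ ∀ n x y, ε ≤ dist x y →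
      δ ≤ dist (ψ n x) (ψ n y) := by
    intro ε hε
    obtain ⟨δ, hδ, h⟩ := hP N1 c1 ε hc1p hε
    exact ⟨δ, hδ, fun n => h (ψ n) (hψi n) (hψQ n) (hψ3 n)⟩
  set 𝓤 : Ultrafilter ℕ := hyperfilter ℕ with h𝓤
  have h𝓤t : (𝓤 : Filter ℕ) ≤ atTop := Nat.hyperfilter_le_atTop
  refine ⟨(𝓤 : Filter ℕ), ψ, inferInstance, ?_, ?_⟩
  · intro a b c e _ _ _ _ hD
    have hD' : D4 a c b e := ⟨hD.2.1, hD.1, hD.2.2.1, hD.2.2.2.1.symm, hD.2.2.2.2.2, hD.2.2.2.2.1⟩
    have p1 := cr_pos hD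
    have p2 := cr_pos hD'
    set R : ℝ := max 1 (max (N1 (2 * cr a b c e)) (N1 (2 * cr a c b e))) with hR
    have hR1 : 1 ≤ R := le_max_left _ _
    refine ⟨R, by linarith, ?_⟩
    have t1 : Tendsto (fun q : Sph × Sph × Sph × Sph => cr q.1 q.2.1 q.2.2.1 q.2.2.2)
        (𝓝 (a, b, c, e)) (𝓝 (cr a b c e)) :=
      cr_tendsto hD (Continuous.tendsto (by fun_prop) (a, b, c, e))
        (Continuous.tendsto (f := fun q : Sph × Sph × Sph × Sph => q.2.1) (by fun_prop) (a, b, c, e))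
        (Continuous.tendsto (f := fun q : Sph × Sph × Sph × Sph => q.2.2.1) (by fun_prop)
          (a, b, c, e))
        (Continuous.tendsto (f := fun q : Sph × Sph × Sph × Sph => q.2.2.2) (by fun_prop)
          (a, b, c, e))
    have t2 : Tendsto (fun q : Sph × Sph × Sph × Sph => cr q.1 q.2.2.1 q.2.1 q.2.2.2)
        (𝓝 (a, b, c, e)) (𝓝 (cr a c b e)) :=
      cr_tendsto hD' (Continuous.tendsto (by fun_prop) (a, b, c, e))
        (Continuous.tendsto (f := fun q : Sph × Sph × Sph × Sph => q.2.2.1) (by fun_prop)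
          (a, b, c, e))
        (Continuous.tendsto (f := fun q : Sph × Sph × Sph × Sph => q.2.1) (by fun_prop) (a, b, c, e))
        (Continuous.tendsto (f := fun q : Sph × Sph × Sph × Sph => q.2.2.2) (by fun_prop)
          (a, b, c, e))
    filter_upwards [D4_open hD, t1.eventually (eventually_lt_nhds (show cr a b c e <
      2 * cr a b c e by linarith)), t2.eventually (eventually_lt_nhds (show cr a c b e <
      2 * cr a c b e by linarith))] with q qD q1 q2
    refine Eventually.of_forall fun n => ?_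
    have qD' : D4 q.1 q.2.2.1 q.2.1 q.2.2.2 :=
      ⟨qD.2.1, qD.1, qD.2.2.1, qD.2.2.2.1.symm, qD.2.2.2.2.2, qD.2.2.2.2.1⟩
    have u1 := hψQ n _ _ _ _ qD _ q1.le
    have u2 := hψQ n _ _ _ _ qD' _ q2.le
    have p3 := cr_pos (D4_inj qD (ψ n) (hψi n))
    have v1 : cr (ψ n q.1) (ψ n q.2.1) (ψ n q.2.2.1) (ψ n q.2.2.2) ≤ R :=
      u1.trans ((le_max_left _ _).trans (le_max_right _ _))
    have v2 : cr (ψ n q.1) (ψ n q.2.2.1) (ψ n q.2.1) (ψ n q.2.2.2) ≤ R :=
      u2.trans ((le_max_right _ _).trans (le_max_right _ _))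
    rw [cr_swap] at v2
    exact ⟨by rw [inv_le_comm₀ (by linarith) p3]; exact v2, v1⟩
  · intro g a b c e _ _ _ _ hD _ _ _ _
    obtain ⟨s1, s2, s3, hs12, hs13, hs23⟩ := exists_three
    -- separation constants
    have hgi := tau_inj hA g
    obtain ⟨ε, hε, hmin⟩ : ∃ ε : ℝ, 0 < ε ∧
        (ε ≤ dist s1 s2 ∧ ε ≤ dist s1 s3 ∧ ε ≤ dist s2 s3) ∧
        (ε ≤ dist (τ g s1) (τ g s2) ∧ ε ≤ dist (τ g s1) (τ g s3) ∧
          ε ≤ dist (τ g s2) (τ g s3)) ∧
        (ε ≤ dist a b ∧ ε ≤ dist a c ∧ ε ≤ dist a e ∧ ε ≤ dist b c ∧ ε ≤ dist b e ∧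
          ε ≤ dist c e) := by
      have key : ∀ l : List (Sph × Sph), (∀ p ∈ l, p.1 ≠ p.2) → ∃ ε : ℝ, 0 < ε ∧
          ∀ p ∈ l, ε ≤ dist p.1 p.2 := by
        intro l
        induction l with
        | nil => exact fun _ => ⟨1, one_pos, by simp⟩
        | cons p l ih =>
          intro h
          obtain ⟨ε, hε, h2⟩ := ih fun q hq => h q (List.mem_cons_of_mem _ hq)
          have hp := dist_pos.2 (h p List.mem_cons_self)
          refine ⟨min ε (dist p.1 p.2), lt_min hε hp, ?_⟩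
          intro q hq
          rcases List.mem_cons.1 hq with rfl | hq
          · exact min_le_right _ _
          · exact (min_le_left _ _).trans (h2 q hq)
      obtain ⟨ε, hε, h⟩ := key [(s1, s2), (s1, s3), (s2, s3), (τ g s1, τ g s2), (τ g s1, τ g s3),
        (τ g s2, τ g s3), (a, b), (a, c), (a, e), (b, c), (b, e), (c, e)] (by
          simp only [List.mem_cons, List.not_mem_nil, or_false, forall_eq_or_imp, forall_eq]
          exact ⟨hs12, hs13, hs23, fun h => hs12 (hgi h), fun h => hs13 (hgi h),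
            fun h => hs23 (hgi h), hD.1, hD.2.1, hD.2.2.1, hD.2.2.2.1, hD.2.2.2.2.1,
            hD.2.2.2.2.2⟩)
      simp only [List.mem_cons, List.not_mem_nil, or_false, forall_eq_or_imp, forall_eq] at h
      obtain ⟨i1, i2, i3, i4, i5, i6, i7, i8, i9, i10, i11, i12⟩ := h
      exact ⟨ε, hε, ⟨i1, i2, i3⟩, ⟨i4, i5, i6⟩, i7, i8, i9, i10, i11, i12⟩
    obtain ⟨⟨m1, m2, m3⟩, ⟨m4, m5, m6⟩, m7, m8, m9, m10, m11, m12⟩ := hmin
    obtain ⟨δ, hδ, hsδ⟩ := hsep ε hε
    -- the maps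
    set f : ℕ → Sph → Sph := fun n p => A n (τ ((γ n)⁻¹ * g * γ n) ((A n).symm p)) with hf
    have hfψ : ∀ n p, f n (ψ n p) = ψ n (τ g p) := by
      intro n p
      simp only [hf, hψ]
      rw [(A n).symm_apply_apply, ← hA.mul, ← hA.mul]
      congr 2
      group
    set N3 : ℝ → ℝ := fun t => K * N (K * t) with hN3
    have hN3G : Gauge N3 := by
      intro T hT
      obtain ⟨t, ht, h⟩ := hN (T / K) (by positivity)
      refine ⟨t / K, by positivity, ?_⟩
      have := mul_le_mul_of_nonneg_left h hK0.le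
      simp only [hN3]
      rw [mul_div_cancel₀ _ hK0.ne'] at this ⊢
      exact this
    have hfQ : ∀ n, QM N3 (f n) := fun n =>
      (hAQ n).comp ((hQ ((γ n)⁻¹ * g * γ n)).comp (hAQ' n) (A n).symm.injective)
        ((tau_inj hA _).comp (A n).symm.injective)
    have hfc : ∀ n, Continuous (f n) := fun n =>
      (A n).continuous.comp ((hA.cont _).comp (A n).symm.continuous)
    have hfb : ∀ n, Function.Bijective (f n) := by
      intro n
      refine ⟨(A n).injective.comp ((tau_inj hA _).comp (A n).symm.injective), ?_⟩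
      intro p
      refine ⟨A n (τ ((γ n)⁻¹ * g * γ n)⁻¹ ((A n).symm p)), ?_⟩
      simp only [hf]
      rw [(A n).symm_apply_apply, ← hA.mul, mul_inv_cancel, hA.one, (A n).apply_symm_apply]
    have hf3 : ∀ n, Norm3 δ (f n) := by
      intro n
      refine ⟨ψ n s1, ψ n s2, ψ n s3, hsδ n _ _ m1, hsδ n _ _ m2, hsδ n _ _ m3, ?_, ?_, ?_⟩
      · rw [hfψ, hfψ]; exact hsδ n _ _ m4
      · rw [hfψ, hfψ]; exact hsδ n _ _ m5
      · rw [hfψ, hfψ]; exact hsδ n _ _ m6
    have hNC : NC 𝓤 f := hblow (fun n => 1 / ((n : ℝ) + 1)) (fun n => by positivity)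
      tendsto_one_div_add_atTop_nhds_zero_nat A hAinf hAsg 𝓤 h𝓤t _
    have hSg : ∀ n, Sgn (f n) := fun n => hG N3 (f n) (hfc n) (hfb n) (hfQ n)
    have := hC N3 hN3G δ hδ 𝓤 f (fun n => ⟨hfc n, hfb n, hfQ n, hf3 n⟩) hNC hSg
      (fun n => ψ n a) (fun n => ψ n b) (fun n => ψ n c) (fun n => ψ n e)
      (fun n => ⟨hsδ n _ _ m7, hsδ n _ _ m8, hsδ n _ _ m9, hsδ n _ _ m10, hsδ n _ _ m11,
        hsδ n _ _ m12⟩)
    simp only [hfψ] at this
    exact this

end Pool.Agent.Y320.ST
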