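import Pool.Agent.Y320.ST.Loc

set_option autoImplicit false
open Filter Topology MeasureTheory Metric Set

namespace Pool.Agent.Y320.ST
open Pool.Agent.Y320.CM

/-- Uniformly quasisymmetric placements of the spheres of the Cayley graph in the sphere `S²`:
for arbitrarily large `n` there is an injective map of the sphere of radius `n` of the group to
`S²` such that `|f a - f b| ≤ N k |f a - f c|` whenever the Gromov product `(a|b)` is at least
`(a|c) - k`; the function `N` does not depend on `n`. -/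
def UniformPlacements {G : Type} [Group G] (d : G → G → ℝ) : Prop :=
  ∃ N : ℕ → ℝ, ∀ m : ℕ, ∃ n : ℕ, m ≤ n ∧ ∃ f : G → Sph, Set.InjOn f {g | d 1 g = n} ∧
    ∀ (k : ℕ) (a b c : G), d 1 a = n → d 1 b = n → d 1 c = n → a ≠ c →
      gp d 1 a c ≤ gp d 1 a b + k → dist (f a) (f b) ≤ N k * dist (f a) (f c)

section
variable {G : Type} [Group G] {d : G → G → ℝ} {δ : ℝ}

theorem gp_base (w x y : G) (hyp : HypD G d δ) :
    gp d 1 x y = d 1 w + gp d w x y - gp d w x 1 - gp d w y 1 := by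
  unfold gp
  rw [hyp.symm w 1, hyp.symm x 1, hyp.symm y 1]
  ring

theorem gp_nonneg (w x y : G) (hyp : HypD G d δ) : 0 ≤ gp d w x y := by
  unfold gp
  have := hyp.tri x w y
  rw [hyp.symm x w] at this
  linarith

theorem gp_symm (w x y : G) (hyp : HypD G d δ) : gp d w x y = gp d w y x := by
  unfold gp
  rw [hyp.symm x y]
  ring

/-- four points with small Gromov products at `w` -/
theorem cr_of_placement (hyp : HypD G d δ) {n : ℕ} {f : G → Sph} {N : ℕ → ℝ}
    (hinj : Set.InjOn f {g | d 1 g = n})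
    (hf : ∀ (k : ℕ) (a b c : G), d 1 a = n → d 1 b = n → d 1 c = n → a ≠ c →
      gp d 1 a c ≤ gp d 1 a b + k → dist (f a) (f b) ≤ N k * dist (f a) (f c))
    (w : G) (κ : ℝ) (k : ℕ) (hk : 2 * κ + δ ≤ k) {a b c e : G} (ha : d 1 a = n) (hb : d 1 b = n)
    (hc : d 1 c = n) (he : d 1 e = n) (hD : D4 a b c e)
    (h1 : gp d w a b ≤ κ) (h2 : gp d w a c ≤ κ) (h3 : gp d w a e ≤ κ) (h4 : gp d w b c ≤ κ)
    (h5 : gp d w b e ≤ κ) (h6 : gp d w c e ≤ κ) :
    cr (f a) (f b) (f c) (f e) ≤ N k * N k := by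
  have inj : ∀ {x y : G}, d 1 x = n → d 1 y = n → x ≠ y → 0 < dist (f x) (f y) :=
    fun hx hy hxy => dist_pos.2 fun h => hxy (hinj hx hy h)
  -- ratio estimate with center `x`
  have key : ∀ x y z : G, d 1 x = n → d 1 y = n → d 1 z = n → x ≠ z →
      gp d w x z ≤ κ → gp d w y 1 ≤ κ + δ → dist (f x) (f y) ≤ N k * dist (f x) (f z) := by
    intro x y z hx hy hz hxz g1 g2
    apply hf k x y z hx hy hz hxz
    rw [gp_base w x z hyp, gp_base w x y hyp]
    have n1 := gp_nonneg w x y hyp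
    have n2 := gp_nonneg w z 1 hyp
    linarith
  -- two points cannot both be far on the side of `1`
  have two : ∀ x y : G, gp d w x y ≤ κ → gp d w x 1 ≤ κ + δ ∨ gp d w y 1 ≤ κ + δ := by
    intro x y hxy
    by_contra hcon
    push Not at hcon
    have := hyp.hyp w x 1 y
    rw [gp_symm w 1 y hyp] at this
    have hm : κ + δ < min (gp d w x 1) (gp d w y 1) := lt_min hcon.1 hcon.2
    linarith
  have hNk : 0 < N k := by
    rcases two b c h4 with h | h
    · have := key a b c ha hb hc hD.2.1 h2 h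
      have p1 := inj ha hb hD.1
      have p2 := inj ha hc hD.2.1
      by_contra hcon
      push Not at hcon
      have : N k * dist (f a) (f c) ≤ 0 := mul_nonpos_of_nonpos_of_nonneg hcon p2.le
      linarith
    · have := key a c b ha hc hb hD.1 h1 h
      have p1 := inj ha hb hD.1
      have p2 := inj ha hc hD.2.1
      by_contra hcon
      push Not at hcon
      have : N k * dist (f a) (f b) ≤ 0 := mul_nonpos_of_nonpos_of_nonneg hcon p1.le
      linarith
  have pac := inj ha hc hD.2.1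
  have pbe := inj hb he hD.2.2.2.2.1
  unfold cr
  rw [div_le_iff₀ (by positivity)]
  by_cases hbc : gp d w b 1 ≤ κ + δ ∧ gp d w c 1 ≤ κ + δ
  · have e1 := key a b c ha hb hc hD.2.1 h2 hbc.1
    have e2 := key e c b he hc hb hD.2.2.2.2.1.symm (by rw [gp_symm _ _ _ hyp]; exact h5) hbc.2
    rw [dist_comm (f e) (f c), dist_comm (f e) (f b)] at e2
    calc dist (f a) (f b) * dist (f c) (f e)
        ≤ (N k * dist (f a) (f c)) * (N k * dist (f b) (f e)) :=
          mul_le_mul e1 e2 dist_nonneg (by positivity)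
      _ = N k * N k * (dist (f a) (f c) * dist (f b) (f e)) := by ring
  · have hae : gp d w a 1 ≤ κ + δ ∧ gp d w e 1 ≤ κ + δ := by
      by_cases hb1 : gp d w b 1 ≤ κ + δ
      · have hc1 : ¬ gp d w c 1 ≤ κ + δ := fun h => hbc ⟨hb1, h⟩
        exact ⟨(two a c h2).resolve_right hc1,
          (two c e h6).resolve_left hc1⟩
      · exact ⟨(two a b h1).resolve_right hb1, (two b e h5).resolve_left hb1⟩
    have e1 := key b a e hb ha he hD.2.2.2.2.1 h5 hae.1
    have e2 := key c e a hc he ha hD.2.1.symm (by rw [gp_symm _ _ _ hyp]; exact h2) hae.2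
    rw [dist_comm (f b) (f a)] at e1
    rw [dist_comm (f c) (f a)] at e2
    calc dist (f a) (f b) * dist (f c) (f e)
        ≤ (N k * dist (f b) (f e)) * (N k * dist (f a) (f c)) :=
          mul_le_mul e1 e2 dist_nonneg (by positivity)
      _ = N k * N k * (dist (f a) (f c) * dist (f b) (f e)) := by ring

/-- Gromov products of representatives of separated boundary points are bounded -/
theorem gp_bound (hyp : HypD G d δ) {φ : (ℕ → G) → Sph} (hφ : Bd d φ) (ε : ℝ) (hε : 0 < ε) :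
    ∃ K : ℝ, ∀ x y : ℕ → G, CI d x → CI d y → ε ≤ dist (φ x) (φ y) →
      ∃ M : ℕ, ∀ i j, M ≤ i → M ≤ j → gp d 1 (x i) (y j) ≤ K := by
  by_contra hcon
  push Not at hcon
  choose X Y hX hY hε' hM using fun n : ℕ => hcon n
  -- the sequences are near
  have hnear : ∀ n : ℕ, Near d (n - 2 * δ) (X n) (Y n) := by
    intro n
    obtain ⟨M1, h1⟩ := hX n n
    obtain ⟨M2, h2⟩ := hY n n
    obtain ⟨i0, j0, hi0, hj0, h0⟩ := hM n (max M1 M2)
    refine ⟨max M1 M2, fun i j hi hj => ?_⟩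
    have a1 := h1 i i0 (le_trans (le_max_left _ _) hi) (le_trans (le_max_left _ _) hi0)
    have a2 := h2 j0 j (le_trans (le_max_right _ _) hj0) (le_trans (le_max_right _ _) hj)
    have b1 := hyp.hyp 1 (X n i) (X n i0) (Y n j)
    have b2 := hyp.hyp 1 (X n i0) (Y n j0) (Y n j)
    have c2 : (n : ℝ) - δ ≤ gp d 1 (X n i0) (Y n j) :=
      le_trans (sub_le_sub_right (le_min h0.le a2) δ) b2
    have hδ := hyp.nonneg
    have c1 : (n : ℝ) - δ - δ ≤ gp d 1 (X n i) (Y n j) :=
      le_trans (sub_le_sub_right (le_min (by linarith) c2) δ) b1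
    linarith
  obtain ⟨p, -, s, hs, hp⟩ := isCompact_univ.tendsto_subseq (x := fun n => φ (Y n))
    (fun n => trivial)
  obtain ⟨y, hy, rfl⟩ := hφ.surj p
  have t1 := (hφ.top (fun n => Y (s n)) y (fun n => hY _) hy).1 hp
  have t2 : Tendsto (fun n => φ (X (s n))) atTop (𝓝 (φ y)) := by
    refine (hφ.top (fun n => X (s n)) y (fun n => hX _) hy).2 fun K => ?_
    filter_upwards [t1 (K + δ), hs.tendsto_atTop.eventually
      (eventually_ge_atTop (⌈K + 3 * δ⌉₊))] with n hn1 hn2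
    obtain ⟨M1, h1⟩ := hn1
    obtain ⟨M2, h2⟩ := hnear (s n)
    refine ⟨max M1 M2, fun i j hi hj => ?_⟩
    have hm1 : M1 ≤ max M1 M2 := le_max_left _ _
    have hm2 : M2 ≤ max M1 M2 := le_max_right _ _
    have a1 := h1 (max M1 M2) j hm1 (hm1.trans hj)
    have a2 := h2 i (max M1 M2) (hm2.trans hi) hm2
    have b1 := hyp.hyp 1 (X (s n) i) (Y (s n) (max M1 M2)) (y j)
    have c0 : K + 3 * δ ≤ (s n : ℝ) := (Nat.le_ceil _).trans (by exact_mod_cast hn2)
    have c1 : K + δ - δ ≤ gp d 1 (X (s n) i) (y j) :=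
      le_trans (sub_le_sub_right (le_min (by linarith) a1) δ) b1
    linarith
  have t3 := t2.dist hp
  rw [dist_self] at t3
  obtain ⟨n, hn⟩ := (t3.eventually (eventually_lt_nhds hε)).exists
  have := hε' (s n)
  simp only [Function.comp_apply] at hn
  linarith

theorem gp_le_of_base (hyp : HypD G d δ) (h x y : G) :
    gp d 1 x y - d 1 h ≤ gp d 1 (h * x) (h * y) := by
  unfold gp
  have e1 : d (h * x) (h * y) = d x y := hyp.left h x y
  have e2 : d 1 (h * x) = d h⁻¹ x := by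
    rw [← hyp.left h⁻¹ 1 (h * x), mul_one, inv_mul_cancel_left]
  have e3 : d 1 (h * y) = d h⁻¹ y := by
    rw [← hyp.left h⁻¹ 1 (h * y), mul_one, inv_mul_cancel_left]
  have e4 : d 1 h⁻¹ = d 1 h := by
    rw [← hyp.left h 1 h⁻¹, mul_one, mul_inv_cancel, hyp.symm]
  have t1 := hyp.tri 1 h⁻¹ x
  have t2 := hyp.tri 1 h⁻¹ y
  rw [e1, e2, e3]
  linarith

/-- uniform placements bound the finite configurations of the boundary -/
theorem finB_of_placements (hyp : HypD G d δ) {φ : (ℕ → G) → Sph} (hφ : Bd d φ)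
    {τ : G → Sph → Sph} (hτ : Eqv d φ τ) (h : UniformPlacements d) :
    ∃ N', FinB τ Set.univ N' := by
  obtain ⟨N, hN⟩ := h
  have hRay := Pool.Agent.Y587.CM.t_RAY
  have hACT := Pool.Agent.Y37.CM.t_ACTC G d δ φ τ hyp hφ hτ
  -- representatives and points on the spheres
  choose X hXc hXφ using hφ.surj
  choose Z hZ1 hZ2 using fun p => hRay G d δ hyp (X p) (hXc p)
  have hK : ∀ m : ℕ, ∃ K : ℝ, ∀ x y : ℕ → G, CI d x → CI d y →
      1 / ((m : ℝ) + 1) ≤ dist (φ x) (φ y) →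
      ∃ M : ℕ, ∀ i j, M ≤ i → M ≤ j → gp d 1 (x i) (y j) ≤ K := fun m =>
    gp_bound hyp hφ _ (by positivity)
  choose K hK using hK
  -- the main estimate
  have main : ∀ (m n : ℕ) (g : G) (p q : Sph), 1 / ((m : ℝ) + 1) ≤ dist (τ g p) (τ g q) →
      K m + 3 * δ + d 1 g < n → gp d 1 (g * Z p n) (g * Z q n) ≤ K m + 2 * δ := by
    intro m n g p q hpq hn
    have hgx := hACT.1 g (X p) (hXc p)
    have hgy := hACT.1 g (X q) (hXc q)
    have e1 : φ (fun i => g * X p i) = τ g p := by rw [← hτ g (X p) (hXc p), hXφ]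
    have e2 : φ (fun i => g * X q i) = τ g q := by rw [← hτ g (X q) (hXc q), hXφ]
    obtain ⟨M, hM⟩ := hK m _ _ hgx hgy (by rw [e1, e2]; exact hpq)
    obtain ⟨M1, h1⟩ := hZ2 p n
    obtain ⟨M2, h2⟩ := hZ2 q n
    set i := max M (max M1 M2) with hi
    have a0 := hM i i (le_max_left _ _) (le_max_left _ _)
    have a1 := h1 i ((le_max_left _ _).trans (le_max_right _ _))
    have a2 := h2 i ((le_max_right _ _).trans (le_max_right _ _))
    have b1 := gp_le_of_base hyp g (X p i) (Z p n)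
    have b2 := gp_le_of_base hyp g (X q i) (Z q n)
    by_contra hcon
    push Not at hcon
    have hδ := hyp.nonneg
    have c1 := hyp.hyp 1 (g * Z p n) (g * Z q n) (g * X q i)
    rw [gp_symm 1 (g * Z q n) (g * X q i) hyp] at c1
    have c2 : K m + δ < gp d 1 (g * Z p n) (g * X q i) := by
      have : K m + 2 * δ < min (gp d 1 (g * Z p n) (g * Z q n))
          (gp d 1 (g * X q i) (g * Z q n)) := lt_min hcon (by linarith)
      linarith
    have c3 := hyp.hyp 1 (g * X p i) (g * Z p n) (g * X q i)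
    have c4 : K m < gp d 1 (g * X p i) (g * X q i) := by
      have : K m + δ < min (gp d 1 (g * X p i) (g * Z p n))
          (gp d 1 (g * Z p n) (g * X q i)) := lt_min (by linarith) c2
      linarith
    linarith
  -- the bound
  refine ⟨fun ε => N ⌈2 * (K ⌈1 / ε⌉₊ + 2 * δ) + δ⌉₊ * N ⌈2 * (K ⌈1 / ε⌉₊ + 2 * δ) + δ⌉₊, ?_⟩
  intro P _ H η hη
  classical
  -- the radius
  obtain ⟨η', hη', hPd⟩ : ∃ η' : ℝ, 0 < η' ∧ ∀ p ∈ P, ∀ q ∈ P, p ≠ q → η' ≤ dist p q := by
    have : ∀ Q : Finset (Sph × Sph), ∃ η' : ℝ, 0 < η' ∧ ∀ r ∈ Q, r.1 ≠ r.2 → η' ≤ dist r.1 r.2 := by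
      intro Q
      induction Q using Finset.induction_on with
      | empty => exact ⟨1, one_pos, by simp⟩
      | insert r Q _ ih =>
        obtain ⟨η', h1, h2⟩ := ih
        by_cases hr : r.1 = r.2
        · refine ⟨η', h1, fun s hs hne => ?_⟩
          rcases Finset.mem_insert.1 hs with rfl | hs
          · exact absurd hr hne
          · exact h2 s hs hne
        · refine ⟨min η' (dist r.1 r.2), lt_min h1 (dist_pos.2 hr), fun s hs hne => ?_⟩
          rcases Finset.mem_insert.1 hs with rfl | hs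
          · exact min_le_right _ _
          · exact (min_le_left _ _).trans (h2 s hs hne)
    obtain ⟨η', h1, h2⟩ := this (P ×ˢ P)
    exact ⟨η', h1, fun p hp q hq hne => h2 (p, q) (Finset.mem_product.2 ⟨hp, hq⟩) hne⟩
  set m0 : ℕ := max ⌈1 / η⌉₊ ⌈1 / η'⌉₊ with hm0
  obtain ⟨R, hR⟩ : ∃ R : ℝ, ∀ m ≤ m0, ∀ g ∈ insert 1 H, K m + 3 * δ + d 1 g < R := by
    have hfin : (((Finset.range (m0 + 1)) ×ˢ (insert 1 H)).image
        (fun r : ℕ × G => K r.1 + 3 * δ + d 1 r.2)).Nonempty :=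
      Finset.Nonempty.image (Finset.Nonempty.product (by simp) (by simp)) _
    refine ⟨(((Finset.range (m0 + 1)) ×ˢ (insert 1 H)).image
        (fun r : ℕ × G => K r.1 + 3 * δ + d 1 r.2)).max' hfin + 1, fun m hm g hg => ?_⟩
    have := Finset.le_max' (((Finset.range (m0 + 1)) ×ˢ (insert 1 H)).image
        (fun r : ℕ × G => K r.1 + 3 * δ + d 1 r.2)) (K m + 3 * δ + d 1 g)
      (Finset.mem_image.2 ⟨(m, g),
        Finset.mem_product.2 ⟨Finset.mem_range.2 (Nat.lt_add_one_of_le hm), hg⟩, rfl⟩)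
    linarith
  obtain ⟨n, hn, f, hinj, hf⟩ := hN ⌈R⌉₊
  have hRn : R ≤ n := (Nat.le_ceil R).trans (by exact_mod_cast hn)
  have hceil : ∀ ε : ℝ, 0 < ε → 1 / ((⌈1 / ε⌉₊ : ℝ) + 1) ≤ ε := by
    intro ε hε
    have h1 := Nat.le_ceil (1 / ε)
    rw [div_le_iff₀ (by positivity)]
    rw [div_le_iff₀ hε] at h1
    nlinarith
  -- different points
  have hdist : ∀ p ∈ P, ∀ q ∈ P, p ≠ q → Z p n ≠ Z q n := by
    intro p hp q hq hpq heq
    have h1 := hPd p hp q hq hpq
    have h2 := main ⌈1 / η'⌉₊ n 1 p q (by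
      rw [hACT.2.1, hACT.2.1]
      exact (hceil η' hη').trans h1)
      (lt_of_lt_of_le (hR _ (le_max_right _ _) 1 (by simp)) hRn)
    rw [one_mul, one_mul, ← heq] at h2
    have h3 : gp d 1 (Z p n) (Z p n) = n := by
      unfold gp
      rw [hyp.self, hZ1]
      ring
    have h4 := hR _ (le_max_right ⌈1 / η⌉₊ ⌈1 / η'⌉₊) 1 (by simp)
    rw [hyp.self] at h4
    have hδ := hyp.nonneg
    linarith
  refine ⟨fun p => f (Z p n), ?_, ?_⟩
  · intro p hp q hq hpq
    by_contra hne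
    exact hdist p hp q hq hne (hinj (hZ1 p n) (hZ1 q n) hpq)
  · intro g hg ε hε a ha b hb c hc e he s1 s2 s3 s4 s5 s6
    have hε0 : 0 < ε := hη.trans_le hε
    have hm : ⌈1 / ε⌉₊ ≤ m0 :=
      (Nat.ceil_le_ceil (one_div_le_one_div_of_le hη hε)).trans (le_max_left _ _)
    have hn' : K ⌈1 / ε⌉₊ + 3 * δ + d 1 g < n :=
      lt_of_lt_of_le (hR _ hm g (by simp [hg])) hRn
    have hne : ∀ {x y : Sph}, ε ≤ dist (τ g x) (τ g y) → x ≠ y := by
      rintro x y hxy rfl
      rw [dist_self] at hxy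
      linarith
    have gm : ∀ p q : Sph, ε ≤ dist (τ g p) (τ g q) →
        gp d g⁻¹ (Z p n) (Z q n) ≤ K ⌈1 / ε⌉₊ + 2 * δ := by
      intro p q hpq
      have h1 := main ⌈1 / ε⌉₊ n g p q ((hceil ε hε0).trans hpq) hn'
      have e1 : gp d g⁻¹ (Z p n) (Z q n) = gp d 1 (g * Z p n) (g * Z q n) := by
        unfold gp
        have e1 : d (g * Z p n) (g * Z q n) = d (Z p n) (Z q n) := hyp.left g _ _
        have e2 : d 1 (g * Z p n) = d g⁻¹ (Z p n) := by
          rw [← hyp.left g⁻¹ 1 (g * Z p n), mul_one, inv_mul_cancel_left]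
        have e3 : d 1 (g * Z q n) = d g⁻¹ (Z q n) := by
          rw [← hyp.left g⁻¹ 1 (g * Z q n), mul_one, inv_mul_cancel_left]
        rw [e1, e2, e3]
      rw [e1]
      exact h1
    exact cr_of_placement hyp hinj hf g⁻¹ (K ⌈1 / ε⌉₊ + 2 * δ)
      ⌈2 * (K ⌈1 / ε⌉₊ + 2 * δ) + δ⌉₊ (Nat.le_ceil _) (hZ1 a n) (hZ1 b n) (hZ1 c n) (hZ1 e n)
      ⟨hdist a ha b hb (hne s1), hdist a ha c hc (hne s2), hdist a ha e he (hne s3),
        hdist b hb c hc (hne s4), hdist b hb e he (hne s5), hdist c hc e he (hne s6)⟩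
      (gm a b s1) (gm a c s2) (gm a e s3) (gm b c s4) (gm b e s5) (gm c e s6)

end

end Pool.Agent.Y320.ST
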