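import Pool.Agent.Y320.ST.All
import Pool.Agent.Y320.ST.Pla
import Pool.Agent.Y914.ST.Diff
import Pool.Agent.Y320.CM.Fin

set_option autoImplicit false
open Filter Topology MeasureTheory Metric Set

namespace Pool.Agent.Y320.ST
open Pool.Agent.Y320.CM

/-- the theorem of Sullivan and Tukia for groups acting cocompactly on triples (form used here) -/
theorem sullivanTukia : S_ST := st_all Pool.Agent.Y914.ST.t_DIFF Pool.Agent.Y914.ST.t_SGN

/-- Uniform control of cross ratios on the open set `U`, in a coordinate `f` which is injective on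
`U` and has locally bounded cross ratios there (for instance `f` continuous on `U`): 4-tuples of
distinct points of `U` with cross ratio at most `t`, whose images under `g` are in `U`, are mapped
by `g` to 4-tuples of cross ratio at most `N t`. -/
def LocallyUniformlyQuasiMoebius (G : Type) [Group G] (τ : G → Sph → Sph) (U : Set Sph) : Prop :=
  IsOpen U ∧ U.Nonempty ∧ ∃ (f : Sph → Sph) (N : ℝ → ℝ), Set.InjOn f U ∧
    (∀ a b c e : Sph, a ∈ U → b ∈ U → c ∈ U → e ∈ U → D4 a b c e →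
      ∃ R : ℝ, ∀ᶠ q in 𝓝 (a, b, c, e), cr (f q.1) (f q.2.1) (f q.2.2.1) (f q.2.2.2) ≤ R) ∧
    (∀ (g : G) (a b c e : Sph), a ∈ U → b ∈ U → c ∈ U → e ∈ U → D4 a b c e →
      τ g a ∈ U → τ g b ∈ U → τ g c ∈ U → τ g e ∈ U → ∀ t, cr (f a) (f b) (f c) (f e) ≤ t →
      cr (f (τ g a)) (f (τ g b)) (f (τ g c)) (f (τ g e)) ≤ N t)

theorem geometric_of_finB {G : Type} [Group G] {τ : G → Sph → Sph} (hA : Act G τ) (hC : Cvg τ)
    (U : Set Sph) (hU : IsOpen U) (hne : U.Nonempty) (N : ℝ → ℝ) (hN : FinB τ U N) :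
    ActsGeometrically G := by
  obtain ⟨F, hc, hi, N', hG, hQ⟩ := qm_of_finB hA hC U hU hne N hN
  exact geometric_of_qm sullivanTukia Pool.Agent.Y708.ST.t_TRANS hA F hc hi N' hG hQ

/-- the boundary action exists -/
theorem exists_tau {G : Type} [Group G] {d : G → G → ℝ} {δ : ℝ} (hyp : HypD G d δ)
    {φ : (ℕ → G) → Sph} (hφ : Bd d φ) : ∃ τ : G → Sph → Sph, Eqv d φ τ := by
  choose X hXc hXφ using hφ.surj
  have hci : ∀ (g : G) (x : ℕ → G), CI d x → CI d (fun i => g * x i) := by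
    intro g x hx K
    obtain ⟨M, hM⟩ := hx (K + d 1 g)
    refine ⟨M, fun i j hi hj => ?_⟩
    have := gp_le_of_base hyp g (x i) (x j)
    have := hM i j hi hj
    linarith
  refine ⟨fun g p => φ (fun i => g * X p i), fun g x hx => ?_⟩
  have hn := (hφ.eqv (X (φ x)) x (hXc _) hx).1 (hXφ _)
  refine (hφ.eqv _ _ (hci g _ (hXc _)) (hci g x hx)).2 fun K => ?_
  obtain ⟨M, hM⟩ := hn (K + d 1 g)
  refine ⟨M, fun i j hi hj => ?_⟩
  have := gp_le_of_base hyp g (X (φ x) i) (x j)
  have := hM i j hi hj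
  linarith

end Pool.Agent.Y320.ST
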