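import Pool.Agent.Y320.ST.Weak2
import Pool.Agent.Y320.ST.Psl2
import Pool.Agent.Z932.ST.Link
import Pool.Agent.Y391.ST.Chain

set_option autoImplicit false
open Filter Topology MeasureTheory Metric Set

namespace Pool.Agent.Y320.ST
open Pool.Agent.Y320.CM

theorem finB_of_weakPlacements {G : Type} [Group G] {d : G → G → ℝ} {δ : ℝ} (hyp : HypD G d δ)
    {φ : (ℕ → G) → Sph} (hφ : Bd d φ) {τ : G → Sph → Sph} (hτ : Eqv d φ τ)
    (h : WeakPlacements d) : ∃ N', FinB τ Set.univ N' :=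
  finB_of_weak (Pool.Agent.Z932.ST.t_LINK Pool.Agent.Y391.ST.t_CHAIN) hyp hφ hτ h

end Pool.Agent.Y320.ST
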