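import Pool.Agent.Y320.ST.Asm
import Pool.Agent.TH162.FC.Local

set_option autoImplicit false
open Filter Topology MeasureTheory Metric Set

namespace Pool.Agent.Y320.ST
open Pool.Agent.Y320.CM

/-- the boundary action as a homomorphism to the homeomorphism group -/
noncomputable def hom {G : Type} [Group G] {τ : G → Sph → Sph} (hA : Act G τ) :
    G →* (Sph ≃ₜ Sph) where
  toFun g :=
    { toFun := τ g
      invFun := τ g⁻¹
      left_inv := fun x => by rw [← hA.mul, inv_mul_cancel, hA.one]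
      right_inv := fun x => by rw [← hA.mul, mul_inv_cancel, hA.one]
      continuous_toFun := hA.cont g
      continuous_invFun := hA.cont g⁻¹ }
  map_one' := by
    ext1 x
    exact hA.one x
  map_mul' g h := by
    ext1 x
    exact hA.mul g h x

@[simp] theorem hom_apply {G : Type} [Group G] {τ : G → Sph → Sph} (hA : Act G τ) (g : G)
    (x : Sph) : hom hA g x = τ g x := rfl

/-- convergence property -/
def Cvg {G : Type} [Group G] (τ : G → Sph → Sph) : Prop :=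
  ∀ g : ℕ → G, Tendsto g atTop cofinite → ∃ k : ℕ → ℕ, StrictMono k ∧ ∃ p q : Sph,
    ∀ U ∈ 𝓝 p, ∀ W ∈ 𝓝 q, ∀ᶠ n in atTop, ∀ x, x ∉ W → τ (g (k n)) x ∈ U

/-- bounded finite configurations -/
def FinB {G : Type} [Group G] (τ : G → Sph → Sph) (U : Set Sph) (N : ℝ → ℝ) : Prop :=
  ∀ P : Finset Sph, (P : Set Sph) ⊆ U → ∀ (H : Finset G) (δ : ℝ), 0 < δ →
    ∃ φ : Sph → Sph, InjOn φ P ∧ ∀ h ∈ H, ∀ ε, δ ≤ ε →
      ∀ a ∈ P, ∀ b ∈ P, ∀ c ∈ P, ∀ e ∈ P,
        ε ≤ dist (τ h a) (τ h b) → ε ≤ dist (τ h a) (τ h c) → ε ≤ dist (τ h a) (τ h e) →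
        ε ≤ dist (τ h b) (τ h c) → ε ≤ dist (τ h b) (τ h e) → ε ≤ dist (τ h c) (τ h e) →
        cr (φ a) (φ b) (φ c) (φ e) ≤ N ε

theorem cr_eq (a b c e : Sph) : Pool.Agent.TH162.FC.cr a e b c = cr a b c e := by
  unfold Pool.Agent.TH162.FC.cr cr
  rw [dist_comm e c, dist_comm e b]

instance sph_perf (x : Sph) : (𝓝[≠] x).NeBot := by
  have h1 : IsConnected (Metric.sphere (0 : EuclideanSpace ℝ (Fin 3)) 1) := by
    apply isConnected_sphere
    · rw [← Module.finrank_eq_rank]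
      simp
    · norm_num
  have : ConnectedSpace Sph := isConnected_iff_connectedSpace.1 h1
  have h2 : Nontrivial Sph := inferInstance
  infer_instance

/-- quasi-Moebius coordinate -/
theorem qm_of_finB {G : Type} [Group G] {τ : G → Sph → Sph} (hA : Act G τ) (hC : Cvg τ)
    (U : Set Sph) (hU : IsOpen U) (hne : U.Nonempty) (N : ℝ → ℝ) (hN : FinB τ U N) :
    ∃ F : Sph → Sph, Continuous F ∧ Function.Injective F ∧ ∃ N' : ℝ → ℝ, Gauge N' ∧
      ∀ (g : G) (a b c e : Sph), D4 a b c e → ∀ t, cr (F a) (F b) (F c) (F e) ≤ t →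
        cr (F (τ g a)) (F (τ g b)) (F (τ g c)) (F (τ g e)) ≤ N' t := by
  have h1 : Pool.Agent.TH289.C.IsConvergenceAction (hom hA) := hC
  have h2 : Pool.Agent.TH289.C.CocompactOnTriples (hom hA) := by
    obtain ⟨c, hc, h⟩ := hA.coc
    refine ⟨c, hc, fun x y z hxy hyz hxz => ?_⟩
    obtain ⟨g, g1, g2, g3⟩ := h x y z hxy hxz hyz
    exact ⟨g, g1, g3, g2⟩
  have h3 : Pool.Agent.TH162.FC.FinBoundOn (hom hA) (EuclideanSpace ℝ (Fin 3)) U N := by
    intro P hP H δ hδ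
    obtain ⟨φ, hφ, h⟩ := hN P hP H δ hδ
    refine ⟨φ, hφ, fun k hk ε hε a ha b hb c hc d hd hs => ?_⟩
    obtain ⟨s1, s2, s3, s4, s5, s6⟩ := hs
    rw [cr_eq (φ a) (φ c) (φ d) (φ b)]
    exact h k hk ε hε a ha c hc d hd b hb s2 s3 s1 s6 (by rw [dist_comm]; exact s4)
      (by rw [dist_comm]; exact s5)
  obtain ⟨F, hFc, hFi, hT, hS⟩ := Pool.Agent.TH162.FC.embeds_of_local (fun x => sph_perf x) h1 h2
    hU hne h3
  refine ⟨F, hFc, hFi, fun t => sSup {v | ∃ (g : G) (a b c e : Sph), D4 a b c e ∧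
    cr (F a) (F b) (F c) (F e) ≤ t ∧ v = cr (F (τ g a)) (F (τ g b)) (F (τ g c)) (F (τ g e))},
    ?_, ?_⟩
  · intro T hT'
    obtain ⟨t, ht, h⟩ := hS T hT'
    refine ⟨t, ht, ?_⟩
    apply Real.sSup_le
    · rintro v ⟨g, a, b, c, e, hD, hle, rfl⟩
      have := h g a e b c ⟨hD.2.2.1, hD.1, hD.2.1, hD.2.2.2.2.1.symm, hD.2.2.2.2.2.symm,
        hD.2.2.2.1⟩ (by rw [cr_eq]; exact hle)
      simp only [hom_apply] at this
      rwa [cr_eq] at this
    · exact hT'.le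
  · intro g a b c e hD t ht
    apply le_csSup
    · obtain ⟨T, h⟩ := hT t
      refine ⟨T, ?_⟩
      rintro v ⟨g, a, b, c, e, hD, hle, rfl⟩
      have := h g a e b c ⟨hD.2.2.1, hD.1, hD.2.1, hD.2.2.2.2.1.symm, hD.2.2.2.2.2.symm,
        hD.2.2.2.1⟩ (by rw [cr_eq]; exact hle)
      simp only [hom_apply] at this
      rwa [cr_eq] at this
    · exact ⟨g, a, b, c, e, hD, ht, rfl⟩

/-- a continuous injective map of the sphere is a homeomorphism -/
theorem exists_homeo (F : Sph → Sph) (hc : Continuous F) (hi : Function.Injective F) :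
    ∃ E : Sph ≃ₜ Sph, ∀ x, E x = F x := by
  have hs : Function.Surjective F := Pool.Agent.Y438.CM.surj F hc hi
  let e : Sph ≃ Sph := Equiv.ofBijective F ⟨hi, hs⟩
  exact ⟨Continuous.homeoOfEquivCompactToT2 (f := e) hc, fun x => rfl⟩

/-- a quasi-Moebius coordinate gives a geometric action on hyperbolic space -/
theorem geometric_of_qm (hST : S_ST) (hTR : S_TRANS) {G : Type} [Group G] {τ : G → Sph → Sph}
    (hA : Act G τ) (F : Sph → Sph) (hc : Continuous F) (hi : Function.Injective F) (N : ℝ → ℝ)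
    (hN : Gauge N) (hQ : ∀ (g : G) (a b c e : Sph), D4 a b c e → ∀ t,
      cr (F a) (F b) (F c) (F e) ≤ t →
        cr (F (τ g a)) (F (τ g b)) (F (τ g c)) (F (τ g e)) ≤ N t) :
    ∃ ρ : G →* Matrix (Fin 4) (Fin 4) ℝ,
      (∀ g : G, ∀ v ∈ Hyp, Matrix.mulVec (ρ g) v ∈ Hyp) ∧
      (∀ K : Set V, IsCompact K → K ⊆ Hyp →
        Set.Finite {g : G | ∃ v ∈ K, Matrix.mulVec (ρ g) v ∈ K}) ∧
      (∃ K : Set V, IsCompact K ∧ K ⊆ Hyp ∧
        ∀ v ∈ Hyp, ∃ g : G, ∃ w ∈ K, Matrix.mulVec (ρ g) w = v) := by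
  obtain ⟨E, hE⟩ := exists_homeo F hc hi
  have hA' := hTR G τ hA E
  obtain ⟨l, ψ, hl, hψ⟩ := hST G (fun g x => E (τ g (E.symm x))) hA' N hN (by
    intro g a b c e hD t ht
    have hD' : D4 (E.symm a) (E.symm b) (E.symm c) (E.symm e) :=
      D4_inj hD E.symm E.symm.injective
    have := hQ g _ _ _ _ hD' t (by
      rw [← hE, ← hE, ← hE, ← hE]
      simpa only [Homeomorph.apply_symm_apply] using ht)
    simpa only [← hE] using this)
  exact geometric_of_coord hA' Set.univ isOpen_univ ⟨inf, trivial⟩ l ψ hψ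

end Pool.Agent.Y320.ST
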