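import Pool.Agent.Y320.ST.Geo

set_option autoImplicit false
open Filter Topology MeasureTheory Metric Set

namespace Pool.Agent.Y320.ST
open Pool.Agent.Y320.CM

/-- separated 4-tuples -/
def Sep (ε : ℝ) : Set (Sph × Sph × Sph × Sph) :=
  {q | ε ≤ dist q.1 q.2.1 ∧ ε ≤ dist q.1 q.2.2.1 ∧ ε ≤ dist q.1 q.2.2.2 ∧
    ε ≤ dist q.2.1 q.2.2.1 ∧ ε ≤ dist q.2.1 q.2.2.2 ∧ ε ≤ dist q.2.2.1 q.2.2.2}

theorem Sep_compact (ε : ℝ) : IsCompact (Sep ε) := by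
  apply IsClosed.isCompact
  have key : ∀ f g : Sph × Sph × Sph × Sph → Sph, Continuous f → Continuous g →
      IsClosed {q | ε ≤ dist (f q) (g q)} := fun f g hf hg =>
    isClosed_le continuous_const (hf.dist hg)
  exact (key (fun q => q.1) (fun q => q.2.1) (by fun_prop) (by fun_prop)).inter
    ((key (fun q => q.1) (fun q => q.2.2.1) (by fun_prop) (by fun_prop)).inter
    ((key (fun q => q.1) (fun q => q.2.2.2) (by fun_prop) (by fun_prop)).inter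
    ((key (fun q => q.2.1) (fun q => q.2.2.1) (by fun_prop) (by fun_prop)).inter
    ((key (fun q => q.2.1) (fun q => q.2.2.2) (by fun_prop) (by fun_prop)).inter
    (key (fun q => q.2.2.1) (fun q => q.2.2.2) (by fun_prop) (by fun_prop))))))

theorem ne_of_le_dist {ε : ℝ} (hε : 0 < ε) {x y : Sph} (h : ε ≤ dist x y) : x ≠ y := by
  rintro rfl
  rw [dist_self] at h
  linarith

theorem Sep_D4 {ε : ℝ} (hε : 0 < ε) {a b c e : Sph} (h : (a, b, c, e) ∈ Sep ε) : D4 a b c e :=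
  ⟨ne_of_le_dist hε h.1, ne_of_le_dist hε h.2.1, ne_of_le_dist hε h.2.2.1,
    ne_of_le_dist hε h.2.2.2.1, ne_of_le_dist hε h.2.2.2.2.1, ne_of_le_dist hε h.2.2.2.2.2⟩

/-- uniform control of cross ratios on one open set bounds the finite configurations -/
theorem finB_of_local {G : Type} [Group G] {τ : G → Sph → Sph} (hA : Act G τ) (U : Set Sph)
    (hU : IsOpen U) (hne : U.Nonempty) (f : Sph → Sph) (hf : InjOn f U)
    (hloc : ∀ a b c e : Sph, a ∈ U → b ∈ U → c ∈ U → e ∈ U → D4 a b c e →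
      ∃ R : ℝ, ∀ᶠ q in 𝓝 (a, b, c, e), cr (f q.1) (f q.2.1) (f q.2.2.1) (f q.2.2.2) ≤ R)
    (N : ℝ → ℝ)
    (hN : ∀ (g : G) (a b c e : Sph), a ∈ U → b ∈ U → c ∈ U → e ∈ U → D4 a b c e →
      τ g a ∈ U → τ g b ∈ U → τ g c ∈ U → τ g e ∈ U → ∀ t, cr (f a) (f b) (f c) (f e) ≤ t →
      cr (f (τ g a)) (f (τ g b)) (f (τ g c)) (f (τ g e)) ≤ N t) :
    ∃ N', FinB τ U N' := by
  have hex : ∀ ε : ℝ, 0 < ε → ∃ M : ℝ, ∀ q ∈ Sep ε, ∃ k : G,
      (τ k q.1 ∈ U ∧ τ k q.2.1 ∈ U ∧ τ k q.2.2.1 ∈ U ∧ τ k q.2.2.2 ∈ U) ∧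
      cr (f (τ k q.1)) (f (τ k q.2.1)) (f (τ k q.2.2.1)) (f (τ k q.2.2.2)) ≤ M := by
    intro ε hε
    refine (Sep_compact ε).induction_on (p := fun s => ∃ M : ℝ, ∀ q ∈ s, ∃ k : G,
      (τ k q.1 ∈ U ∧ τ k q.2.1 ∈ U ∧ τ k q.2.2.1 ∈ U ∧ τ k q.2.2.2 ∈ U) ∧
      cr (f (τ k q.1)) (f (τ k q.2.1)) (f (τ k q.2.2.1)) (f (τ k q.2.2.2)) ≤ M) ?_ ?_ ?_ ?_
    · exact ⟨0, by simp⟩
    · rintro s t hst ⟨M, hM⟩
      exact ⟨M, fun q hq => hM q (hst hq)⟩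
    · rintro s t ⟨M, hM⟩ ⟨M', hM'⟩
      refine ⟨max M M', fun q hq => ?_⟩
      rcases hq with hq | hq
      · obtain ⟨k, h1, h2⟩ := hM q hq
        exact ⟨k, h1, h2.trans (le_max_left _ _)⟩
      · obtain ⟨k, h1, h2⟩ := hM' q hq
        exact ⟨k, h1, h2.trans (le_max_right _ _)⟩
    · rintro ⟨a, b, c, e⟩ hq
      obtain ⟨k, hk⟩ := hA.contr {a, b, c, e} U hU hne
      have ma : τ k a ∈ U := hk a (by simp)
      have mb : τ k b ∈ U := hk b (by simp)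
      have mc : τ k c ∈ U := hk c (by simp)
      have me : τ k e ∈ U := hk e (by simp)
      obtain ⟨R, hR⟩ := hloc _ _ _ _ ma mb mc me (D4_inj (Sep_D4 hε hq) (τ k) (tau_inj hA k))
      have hc := hA.cont k
      have ht : Tendsto (fun q : Sph × Sph × Sph × Sph =>
          (τ k q.1, τ k q.2.1, τ k q.2.2.1, τ k q.2.2.2)) (𝓝 (a, b, c, e))
          (𝓝 (τ k a, τ k b, τ k c, τ k e)) :=
        Continuous.tendsto (by fun_prop) (a, b, c, e)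
      have h1 := ht.eventually hR
      have key : ∀ (F : Sph × Sph × Sph × Sph → Sph), Continuous F → τ k (F (a, b, c, e)) ∈ U →
          ∀ᶠ q in 𝓝 (a, b, c, e), τ k (F q) ∈ U := fun F hF hm =>
        (hc.comp hF).continuousAt.eventually (hU.mem_nhds hm)
      have h2 := (h1.and ((key (fun q => q.1) (by fun_prop) ma).and
        ((key (fun q => q.2.1) (by fun_prop) mb).and ((key (fun q => q.2.2.1) (by fun_prop) mc).and
        (key (fun q => q.2.2.2) (by fun_prop) me)))))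
      refine ⟨_, mem_nhdsWithin_of_mem_nhds h2, R, ?_⟩
      rintro q ⟨q1, q2, q3, q4, q5⟩
      exact ⟨k, ⟨q2, q3, q4, q5⟩, q1⟩
  have hex' : ∀ ε : ℝ, ∃ M : ℝ, 0 < ε → ∀ q ∈ Sep ε, ∃ k : G,
      (τ k q.1 ∈ U ∧ τ k q.2.1 ∈ U ∧ τ k q.2.2.1 ∈ U ∧ τ k q.2.2.2 ∈ U) ∧
      cr (f (τ k q.1)) (f (τ k q.2.1)) (f (τ k q.2.2.1)) (f (τ k q.2.2.2)) ≤ M := by
    intro ε
    by_cases hε : 0 < ε
    · obtain ⟨M, hM⟩ := hex ε hε
      exact ⟨M, fun _ => hM⟩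
    · exact ⟨0, fun h => absurd h hε⟩
  choose M hM using hex'
  refine ⟨fun ε => N (M ε), fun P hP H δ hδ => ⟨f, hf.mono hP, ?_⟩⟩
  intro h _ ε hε a ha b hb c hc e he s1 s2 s3 s4 s5 s6
  have hε0 : 0 < ε := hδ.trans_le hε
  obtain ⟨k, ⟨k1, k2, k3, k4⟩, hk⟩ := hM ε hε0 (τ h a, τ h b, τ h c, τ h e)
    ⟨s1, s2, s3, s4, s5, s6⟩
  simp only at k1 k2 k3 k4 hk
  have hD : D4 (τ h a) (τ h b) (τ h c) (τ h e) := Sep_D4 hε0 ⟨s1, s2, s3, s4, s5, s6⟩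
  have hback : ∀ x, τ (k * h)⁻¹ (τ k (τ h x)) = x := by
    intro x
    rw [← hA.mul k h, ← hA.mul, inv_mul_cancel, hA.one]
  have := hN (k * h)⁻¹ _ _ _ _ k1 k2 k3 k4 (D4_inj hD (τ k) (tau_inj hA k))
    (by rw [hback]; exact hP ha) (by rw [hback]; exact hP hb) (by rw [hback]; exact hP hc)
    (by rw [hback]; exact hP he) _ hk
  simpa only [hback] using this

end Pool.Agent.Y320.ST
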