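import Pool.Agent.Y320.CM.Stm2

/-!
# Project ST: uniformly quasi-Moebius groups of the sphere which are cocompact on triples
(Sullivan-Tukia) and Cannon's conjecture.

Definitions and statements (`S_...`) of the jobs.
-/

set_option autoImplicit false
open Filter Topology MeasureTheory Metric

namespace Pool.Agent.Y320.ST
open Pool.Agent.Y320.CM

/-- the point at infinity of the sphere (south pole) -/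
noncomputable def inf : Sph :=
  ⟨!₂[0, 0, -1], by
    rw [mem_sphere_zero_iff_norm, EuclideanSpace.norm_eq]
    simp [Fin.sum_univ_three]⟩

/-- stereographic coordinate (junk value `0` at `inf`); `st (sg z) = z` -/
noncomputable def st (p : Sph) : ℂ := ⟨p.1 0 / (1 + p.1 2), p.1 1 / (1 + p.1 2)⟩

/-- planar version of a map of the sphere -/
noncomputable def pl (f : Sph → Sph) (z : ℂ) : ℂ := st (f (sg z))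

/-- extension to the sphere of a map of the plane -/
noncomputable def ext (u : ℂ → ℂ) (p : Sph) : Sph := open Classical in
  if p = inf then inf else sg (u (st p))

/-- controlled distortion of cross ratios -/
def QM (N : ℝ → ℝ) (f : Sph → Sph) : Prop :=
  ∀ a b c e, D4 a b c e → ∀ t, cr a b c e ≤ t → cr (f a) (f b) (f c) (f e) ≤ N t

def Gauge (N : ℝ → ℝ) : Prop := ∀ T : ℝ, 0 < T → ∃ t : ℝ, 0 < t ∧ N t ≤ T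

/-- three points at distance at least `c` have images at distance at least `c` -/
def Norm3 (c : ℝ) (f : Sph → Sph) : Prop :=
  ∃ a1 a2 a3 : Sph, c ≤ dist a1 a2 ∧ c ≤ dist a1 a3 ∧ c ≤ dist a2 a3 ∧
    c ≤ dist (f a1) (f a2) ∧ c ≤ dist (f a1) (f a3) ∧ c ≤ dist (f a2) (f a3)

/-- weakly quasisymmetric homeomorphisms of the plane -/
def WQS (H : ℝ) (u : ℂ ≃ₜ ℂ) : Prop :=
  ∀ a b c, dist a b ≤ 3 * dist a c → dist (u a) (u b) ≤ H * dist (u a) (u c)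

/-- integral over the boundary of a rectangle -/
noncomputable def rectInt (f : ℂ → ℂ) (x0 x1 y0 y1 : ℝ) : ℂ :=
  (∫ x in x0..x1, f (x + y0 * Complex.I)) - (∫ x in x0..x1, f (x + y1 * Complex.I)) +
    Complex.I * (∫ y in y0..y1, f (x1 + y * Complex.I)) -
    Complex.I * (∫ y in y0..y1, f (x0 + y * Complex.I))

/-- the closed rectangle -/
def Rect (x0 x1 y0 y1 : ℝ) : Set ℂ := {z | x0 ≤ z.re ∧ z.re ≤ x1 ∧ y0 ≤ z.im ∧ z.im ≤ y1}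

/-- quadratic form -/
def qf (a b c : ℝ) (w : ℂ) : ℝ := a * w.re ^ 2 + 2 * b * w.re * w.im + c * w.im ^ 2

/-! ## Geometry of the sphere -/

/-- basic facts about the stereographic coordinate -/
def S_STB : Prop :=
  (∀ z, st (sg z) = z) ∧ (∀ p, p ≠ inf → sg (st p) = p) ∧ (∀ z, sg z ≠ inf) ∧
  Continuous sg ∧ ContinuousOn st {inf}ᶜ ∧
  (∀ z w, dist (sg z) (sg w) = 2 * dist z w / √((1 + ‖z‖ ^ 2) * (1 + ‖w‖ ^ 2))) ∧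
  (∀ z, dist (sg z) inf = 2 / √(1 + ‖z‖ ^ 2)) ∧
  (∀ a b c, a ≠ c → cr (sg a) (sg b) (sg c) inf = dist a b / dist a c) ∧
  (∀ a b c e, cr (sg a) (sg b) (sg c) (sg e) = dist a b * dist c e / (dist a c * dist b e))

/-- rotations of the sphere -/
def S_ROT : Prop :=
  ∀ q : Sph, ∃ B : Sph ≃ₜ Sph, (∀ x y, dist (B x) (B y) = dist x y) ∧ B q = inf ∧
    (∀ w, B (sg w) ≠ inf → ∃ k : ℂ, k ≠ 0 ∧ HasDerivAt (pl B) k w) ∧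
    (∀ w, B.symm (sg w) ≠ inf → ∃ k : ℂ, k ≠ 0 ∧ HasDerivAt (pl B.symm) k w) ∧
    ∀ (E : Set ℂ) (C : ℝ), 0 ≤ C →
      volume (pl B '' E ∩ closedBall 0 C) ≤ ENNReal.ofReal ((1 + C ^ 2) ^ 2) * volume E

/-- a neighbourhood of infinity has small image, in the planar coordinate, under isometries -/
def S_ROTR : Prop :=
  ∀ C ε : ℝ, 0 < ε → ∃ R : ℝ, 0 < R ∧ ∀ B : Sph → Sph, (∀ x y, dist (B x) (B y) = dist x y) →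
    volume (pl B '' {w | R ≤ ‖w‖} ∩ closedBall 0 C) ≤ ENNReal.ofReal ε

/-- equicontinuity -/
def S_EQC : Prop :=
  ∀ N, Gauge N → ∀ c ε : ℝ, 0 < c → 0 < ε → ∃ δ : ℝ, 0 < δ ∧ ∀ f : Sph → Sph,
    Function.Injective f → QM N f → Norm3 c f → ∀ x y, dist x y < δ → dist (f x) (f y) < ε

/-- equi-injectivity -/
def S_SEPQ : Prop :=
  ∀ N : ℝ → ℝ, ∀ c ε : ℝ, 0 < c → 0 < ε → ∃ δ : ℝ, 0 < δ ∧ ∀ f : Sph → Sph,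
    Function.Injective f → QM N f → Norm3 c f → ∀ x y, ε ≤ dist x y → δ ≤ dist (f x) (f y)

/-- real affine maps -/
def S_EXT : Prop :=
  ∀ L : ℂ ≃L[ℝ] ℂ, ∃ K : ℝ, 1 ≤ K ∧ ∀ (x : ℂ) (r : ℝ), 0 < r →
    ∃ A : Sph ≃ₜ Sph, A inf = inf ∧ (∀ z, A (sg z) = sg (L ((r : ℂ)⁻¹ * (z - x)))) ∧
      QM (fun t => K * t) A ∧ QM (fun t => K * t) A.symm

/-- limits of normalised maps fixing infinity -/
def S_LIMIT : Prop :=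
  ∀ N, Gauge N → ∀ c : ℝ, 0 < c → ∀ (𝓤 : Ultrafilter ℕ) (h : ℕ → Sph → Sph),
    (∀ n, Continuous (h n) ∧ Function.Bijective (h n) ∧ QM N (h n) ∧ h n inf = inf ∧
      Norm3 c (h n)) →
    ∃ (v : ℕ → ℂ ≃ₜ ℂ) (u : ℂ ≃ₜ ℂ), (∀ n z, sg (v n z) = h n (sg z)) ∧
      (∀ n, WQS (max 1 (N 3)) (v n)) ∧ WQS (max 1 (N 3)) u ∧
      (∀ R ε : ℝ, 0 < ε → ∀ᶠ n in (𝓤 : Filter ℕ), ∀ z, ‖z‖ ≤ R → dist (v n z) (u z) ≤ ε) ∧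
      ∀ (Z : ℕ → Sph) (z0 : Sph), Tendsto Z (𝓤 : Filter ℕ) (𝓝 z0) →
        Tendsto (fun n => h n (Z n)) (𝓤 : Filter ℕ) (𝓝 (ext u z0))

/-! ## Analysis in the plane -/

/-- differentiability almost everywhere -/
def S_DIFF : Prop :=
  ∀ H : ℝ, ∃ K : ℝ, 1 ≤ K ∧ ∀ u : ℂ ≃ₜ ℂ, WQS H u →
    ∀ᵐ z : ℂ, DifferentiableAt ℝ u z ∧ ‖fderiv ℝ u z‖ ^ 2 ≤ K * |(fderiv ℝ u z).det|

/-- the sign of the Jacobian -/
def S_SGN : Prop :=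
  ∀ (H : ℝ) (u : ℂ ≃ₜ ℂ), WQS H u →
    (∀ᵐ z : ℂ, 0 ≤ (fderiv ℝ u z).det) ∨ (∀ᵐ z : ℂ, (fderiv ℝ u z).det ≤ 0)

/-- the Jacobian does not vanish -/
def S_NZ : Prop :=
  ∀ (H : ℝ) (u : ℂ ≃ₜ ℂ), WQS H u → WQS H u.symm → ∀ᵐ z : ℂ, (fderiv ℝ u z).det ≠ 0

/-- squares have fat images -/
def S_FAT : Prop :=
  ∀ H : ℝ, ∃ C : ℝ, 0 < C ∧ ∀ u : ℂ ≃ₜ ℂ, WQS H u → ∀ x0 x1 y0 y1 : ℝ, x0 < x1 → y0 < y1 →
    x1 - x0 ≤ 2 * (y1 - y0) → y1 - y0 ≤ 2 * (x1 - x0) →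
    ∀ z ∈ Rect x0 x1 y0 y1, ∀ w ∈ Rect x0 x1 y0 y1, dist (u z) (u w) ^ 2 ≤
      C * (volume (u '' {p : ℂ | x0 < p.re ∧ p.re < x1 ∧ y0 < p.im ∧ p.im < y1})).toReal

/-- Cousin's lemma for rectangles, with additivity of the boundary integral: a function `Φ` of
rectangles which is subadditive under bisection satisfies an estimate for all rectangles if it
satisfies the estimate for all small rectangles around every point. -/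
def S_COUSIN : Prop :=
  ∀ (Φ : ℝ → ℝ → ℝ → ℝ → ℝ) (Ψ : ℝ → ℝ → ℝ → ℝ → ℝ),
    (∀ x0 x1 x2 y0 y1, x0 ≤ x1 → x1 ≤ x2 → y0 ≤ y1 → Φ x0 x2 y0 y1 ≤ Φ x0 x1 y0 y1 + Φ x1 x2 y0 y1) →
    (∀ x0 x1 y0 y1 y2, x0 ≤ x1 → y0 ≤ y1 → y1 ≤ y2 → Φ x0 x1 y0 y2 ≤ Φ x0 x1 y0 y1 + Φ x0 x1 y1 y2) →
    (∀ x0 x1 x2 y0 y1, x0 ≤ x1 → x1 ≤ x2 → y0 ≤ y1 → Ψ x0 x1 y0 y1 + Ψ x1 x2 y0 y1 ≤ Ψ x0 x2 y0 y1) →
    (∀ x0 x1 y0 y1 y2, x0 ≤ x1 → y0 ≤ y1 → y1 ≤ y2 → Ψ x0 x1 y0 y1 + Ψ x0 x1 y1 y2 ≤ Ψ x0 x1 y0 y2) →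
    ∀ X0 X1 Y0 Y1 : ℝ, X0 < X1 → Y0 < Y1 →
    (∀ z ∈ Rect X0 X1 Y0 Y1, ∃ δ : ℝ, 0 < δ ∧ ∀ x0 x1 y0 y1 : ℝ, z ∈ Rect x0 x1 y0 y1 →
      Rect x0 x1 y0 y1 ⊆ Rect X0 X1 Y0 Y1 → x0 < x1 → y0 < y1 → x1 - x0 < δ → y1 - y0 < δ →
      x1 - x0 ≤ 2 * (y1 - y0) → y1 - y0 ≤ 2 * (x1 - x0) → Φ x0 x1 y0 y1 ≤ Ψ x0 x1 y0 y1) →
    Φ X0 X1 Y0 Y1 ≤ Ψ X0 X1 Y0 Y1

/-- the main estimate: the boundary integral of a map which is nearly conformal outside a set of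
small measure and a set with image of small measure -/
def S_MOR : Prop :=
  ∀ H A V δ : ℝ, 0 < δ → ∃ η : ℝ, 0 < η ∧ ∀ u : ℂ ≃ₜ ℂ, WQS H u →
    ∀ x0 x1 y0 y1 : ℝ, x0 < x1 → y0 < y1 → (x1 - x0) * (y1 - y0) ≤ A →
    volume (u '' Rect x0 x1 y0 y1) ≤ ENNReal.ofReal V →
    ∀ P1 P2 : Set ℂ, volume P1 ≤ ENNReal.ofReal η → volume (u '' P2) ≤ ENNReal.ofReal η →
    (∀ z ∈ Rect x0 x1 y0 y1, z ∉ P1 → z ∉ P2 → ∃ (T : ℂ →L[ℝ] ℂ) (k : ℂ),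
      HasFDerivAt u T z ∧ ∀ w, ‖T w - k * w‖ ≤ η * ‖k‖ * ‖w‖) →
    ‖rectInt u x0 x1 y0 y1‖ ≤ δ

/-- Morera's theorem -/
def S_MORERA : Prop :=
  ∀ f : ℂ → ℂ, Continuous f → (∀ x0 x1 y0 y1 : ℝ, x0 < x1 → y0 < y1 →
    rectInt f x0 x1 y0 y1 = 0) → Differentiable ℂ f

/-- entire homeomorphisms are affine -/
def S_AFF : Prop :=
  ∀ (H : ℝ) (u : ℂ ≃ₜ ℂ), WQS H u → Differentiable ℂ u → ∃ a b : ℂ, a ≠ 0 ∧ ∀ z, u z = a * z + b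

/-- nearly conformal linear maps -/
def S_NEARC : Prop :=
  ∀ η : ℝ, 0 < η → ∃ ε : ℝ, 0 < ε ∧ ∀ (T : ℂ →L[ℝ] ℂ) (κ : ℝ), 0 < κ → 0 ≤ T.det →
    (∀ w, |‖T w‖ ^ 2 - κ * ‖w‖ ^ 2| ≤ ε * κ * ‖w‖ ^ 2) →
    ∃ k : ℂ, k ≠ 0 ∧ ∀ w, ‖T w - k * w‖ ≤ η * ‖k‖ * ‖w‖

/-! ## The core -/

/-- nearly conformal on most of the plane -/
def NC (𝓤 : Ultrafilter ℕ) (f : ℕ → Sph → Sph) : Prop :=
  ∀ ρ ε : ℝ, 0 < ρ → 0 < ε → ∀ᶠ n in (𝓤 : Filter ℕ), ∃ P1 P2 : Set ℂ,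
    volume P1 ≤ ENNReal.ofReal ε ∧ volume P2 ≤ ENNReal.ofReal ε ∧
    ∀ z : ℂ, ‖z‖ ≤ ρ → z ∉ P1 → f n (sg z) ≠ inf → ‖pl (f n) z‖ ≤ ρ → pl (f n) z ∉ P2 →
      ∃ (T : ℂ →L[ℝ] ℂ) (κ : ℝ), HasFDerivAt (pl (f n)) T z ∧ 0 < κ ∧
        ∀ w, |‖T w‖ ^ 2 - κ * ‖w‖ ^ 2| ≤ ε * κ * ‖w‖ ^ 2

/-- the sign of the Jacobian of the planar version is constant -/
def Sgn (f : Sph → Sph) : Prop :=
  (∀ᵐ z : ℂ, 0 ≤ (fderiv ℝ (pl f) z).det) ∨ (∀ᵐ z : ℂ, (fderiv ℝ (pl f) z).det ≤ 0)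

def S_SGNS : Prop :=
  ∀ N (f : Sph → Sph), Continuous f → Function.Bijective f → QM N f → Sgn f

/-- limits of nearly conformal maps preserve cross ratios -/
def S_CORE : Prop :=
  ∀ N, Gauge N → ∀ c : ℝ, 0 < c → ∀ (𝓤 : Ultrafilter ℕ) (f : ℕ → Sph → Sph),
    (∀ n, Continuous (f n) ∧ Function.Bijective (f n) ∧ QM N (f n) ∧ Norm3 c (f n)) →
    NC 𝓤 f → (∀ n, Sgn (f n)) →
    ∀ a b e h : ℕ → Sph, (∀ n, c ≤ dist (a n) (b n) ∧ c ≤ dist (a n) (e n) ∧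
      c ≤ dist (a n) (h n) ∧ c ≤ dist (b n) (e n) ∧ c ≤ dist (b n) (h n) ∧
      c ≤ dist (e n) (h n)) →
    Tendsto (fun n => cr (f n (a n)) (f n (b n)) (f n (e n)) (f n (h n)) /
      cr (a n) (b n) (e n) (h n)) (𝓤 : Filter ℕ) (𝓝 1)

/-! ## The group -/

def S_CTB : Prop :=
  ∀ (G : Type) [Group G] (τ : G → Sph → Sph), Act G τ → Countable G

/-- the invariant measurable conformal structure -/
def S_STR : Prop :=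
  ∀ (G : Type) [Group G] (τ : G → Sph → Sph), Act G τ → ∀ N, (∀ g, QM N (τ g)) →
    ∃ (a b c : ℂ → ℝ) (C : ℝ), 0 < C ∧ Measurable a ∧ Measurable b ∧ Measurable c ∧
      (∀ z w, C⁻¹ * ‖w‖ ^ 2 ≤ qf (a z) (b z) (c z) w ∧ qf (a z) (b z) (c z) w ≤ C * ‖w‖ ^ 2) ∧
      ∀ᵐ z : ℂ, ∀ g, τ g (sg z) ≠ inf ∧ DifferentiableAt ℝ (pl (τ g)) z ∧ ∃ κ : ℝ, 0 < κ ∧
        ∀ w, qf (a (pl (τ g) z)) (b (pl (τ g) z)) (c (pl (τ g) z)) (fderiv ℝ (pl (τ g)) z w) =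
          κ * qf (a z) (b z) (c z) w

/-- approximate continuity -/
def S_LEB : Prop :=
  ∀ (a : ℂ → ℝ) (C : ℝ), Measurable a → (∀ z, |a z| ≤ C) → ∀ᵐ x : ℂ, ∀ ε : ℝ, 0 < ε →
    ∃ r0 : ℝ, 0 < r0 ∧ ∀ r : ℝ, 0 < r → r < r0 →
      volume {y : ℂ | dist y x ≤ r ∧ ε < |a y - a x|} ≤ ENNReal.ofReal (ε * r ^ 2)

/-- square root of a positive definite form -/
def S_SQRT : Prop :=
  ∀ a b c C : ℝ, 0 < C → (∀ w, C⁻¹ * ‖w‖ ^ 2 ≤ qf a b c w) →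
    ∃ L : ℂ ≃L[ℝ] ℂ, ∀ w, ‖L w‖ ^ 2 = qf a b c w

/-- the blow-up is nearly conformal -/
def S_BLOW : Prop :=
  ∀ (G : Type) [Group G] (τ : G → Sph → Sph), Act G τ → ∀ N, (∀ g, QM N (τ g)) →
    ∃ (L : ℂ ≃L[ℝ] ℂ) (x : ℂ), ∀ (r : ℕ → ℝ), (∀ n, 0 < r n) → Tendsto r atTop (𝓝 0) →
      ∀ (A : ℕ → Sph ≃ₜ Sph), (∀ n, A n inf = inf) →
      (∀ n z, A n (sg z) = sg (L (((r n : ℝ) : ℂ)⁻¹ * (z - x)))) →
      ∀ (𝓤 : Ultrafilter ℕ), (𝓤 : Filter ℕ) ≤ atTop → ∀ g : ℕ → G,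
        NC 𝓤 (fun n p => A n (τ (g n) ((A n).symm p)))

/-- main theorem -/
def S_ST : Prop :=
  ∀ (G : Type) [Group G] (τ : G → Sph → Sph), Act G τ → ∀ N, Gauge N → (∀ g, QM N (τ g)) →
    ∃ (l : Filter ℕ) (ψ : ℕ → Sph → Sph), l.NeBot ∧ Coord G τ Set.univ l ψ

/-- transport of the action by a homeomorphism -/
def S_TRANS : Prop :=
  ∀ (G : Type) [Group G] (τ : G → Sph → Sph), Act G τ → ∀ F : Sph ≃ₜ Sph,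
    Act G (fun g x => F (τ g (F.symm x)))

/-- distortion at one point suffices -/
def S_ONEPT : Prop :=
  ∀ (G : Type) [Group G] (τ : G → Sph → Sph), Act G τ → ∀ (F : Sph → Sph), Continuous F →
    Function.Injective F → ∀ N, Gauge N → ∀ x0 : Sph,
    (∀ (g : G) (b c e : Sph), D4 x0 b c e → ∀ t, cr (F x0) (F b) (F c) (F e) ≤ t →
      cr (F (τ g x0)) (F (τ g b)) (F (τ g c)) (F (τ g e)) ≤ N t) →
    ∃ N', Gauge N' ∧ ∀ (g : G) (a b c e : Sph), D4 a b c e → ∀ t,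
      cr (F a) (F b) (F c) (F e) ≤ t → cr (F (τ g a)) (F (τ g b)) (F (τ g c)) (F (τ g e)) ≤ N' t

/-- the boundary action of a hyperbolic group is a convergence action -/
def S_CVG : Prop :=
  ∀ (G : Type) [Group G] (d : G → G → ℝ) (δ : ℝ) (φ : (ℕ → G) → Sph) (τ : G → Sph → Sph),
    HypD G d δ → Bd d φ → Eqv d φ τ →
    ∀ g : ℕ → G, Tendsto g atTop cofinite → ∃ k : ℕ → ℕ, StrictMono k ∧ ∃ p q : Sph,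
      ∀ U ∈ 𝓝 p, ∀ W ∈ 𝓝 q, ∀ᶠ n in atTop, ∀ x, x ∉ W → τ (g (k n)) x ∈ U

end Pool.Agent.Y320.ST
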