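import Pool.Agent.Y320.ST.Stm
import Pool.Agent.Y320.CM.Fin2

/-!
# Project ST, third part: from `O(3,1)` to `PSL(2, ℂ)` (subgroup of index at most two)
-/

set_option autoImplicit false
open Filter Topology

namespace Pool.Agent.Y320.ST
open Pool.Agent.Y320.CM

/-- a map preserving absolute cross ratios preserves or conjugates the complex cross ratios -/
def S_DICH : Prop :=
  ∀ f : Sph → Sph, Function.Injective f →
    (∀ a b c e : Sph, D4 a b c e → cr (f a) (f b) (f c) (f e) = cr a b c e) →
    (∀ a b c e : Sph, D4 a b c e → chi (f a) (f b) (f c) (f e) = chi a b c e) ∨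
    (∀ a b c e : Sph, D4 a b c e →
      chi (f a) (f b) (f c) (f e) = (starRingEnd ℂ) (chi a b c e))

/-- the properties `Act` pass to subgroups of index two -/
def S_ACT2 : Prop :=
  ∀ (G : Type) [Group G] (τ : G → Sph → Sph), Act G τ → ∀ H : Subgroup G, H.index = 2 →
    Act H (fun h x => τ (h : G) x)

end Pool.Agent.Y320.ST
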