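import Pool.Agent.Y320.ST.Pla

/-!
# Project ST, part 4: weak placements (one constant)
-/

set_option autoImplicit false
open Filter Topology

namespace Pool.Agent.Y320.ST
open Pool.Agent.Y320.CM

/-- Weakly quasisymmetric placements of the spheres of the Cayley graph, with one constant: for
arbitrarily large `n` the elements of length `n` can be placed at different points of the sphere
such that `|f a - f b| ≤ N |f a - f c|` whenever the Gromov product `(a|b)` is at least `(a|c)`. -/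
def WeakPlacements {G : Type} [Group G] (d : G → G → ℝ) : Prop :=
  ∃ N : ℝ, ∀ m : ℕ, ∃ n : ℕ, m ≤ n ∧ ∃ f : G → Sph, Set.InjOn f {g | d 1 g = n} ∧
    ∀ a b c : G, d 1 a = n → d 1 b = n → d 1 c = n → a ≠ c →
      gp d 1 a c ≤ gp d 1 a b → dist (f a) (f b) ≤ N * dist (f a) (f c)

/-- chains on the sphere which avoid a point -/
def S_CHAIN : Prop :=
  ∀ η1 : ℝ, 0 < η1 → ∃ η2 : ℝ, 0 < η2 ∧ ∀ η : ℝ, 0 < η → ∃ s : ℕ, ∀ r p q : Sph,
    η1 ≤ dist p r → η1 ≤ dist q r → ∃ z : ℕ → Sph, z 0 = p ∧ z s = q ∧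
      (∀ t, η2 ≤ dist (z t) r) ∧ ∀ t, t < s → dist (z t) (z (t + 1)) < η

/-- chains in the boundary of the group with large Gromov products, inside the shadow of `w` -/
def S_LINK : Prop :=
  ∀ (G : Type) [Group G] (d : G → G → ℝ) (δ : ℝ) (φ : (ℕ → G) → Sph) (τ : G → Sph → Sph),
    HypD G d δ → Bd d φ → Eqv d φ τ → ∀ κ L : ℝ, ∃ s : ℕ, ∀ (w : G) (x y : ℕ → G),
      CI d x → CI d y → (∀ᶠ i in atTop, gp d w (x i) 1 ≤ κ) → (∀ᶠ i in atTop, gp d w (y i) 1 ≤ κ) →
      ∃ z : ℕ → ℕ → G, z 0 = x ∧ z s = y ∧ (∀ t, CI d (z t)) ∧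
        ∀ t, t < s → Near d (d 1 w + L) (z t) (z (t + 1))

end Pool.Agent.Y320.ST
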