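import Pool.Agent.Y320.ST.Stm4

set_option autoImplicit false
open Filter Topology MeasureTheory Metric Set

namespace Pool.Agent.Y320.ST
open Pool.Agent.Y320.CM

section
variable {G : Type} [Group G] {d : G → G → ℝ} {δ : ℝ}

/-- two points with small Gromov product at `w` are not both far on the side of `1` -/
theorem two_fwd (hyp : HypD G d δ) (w : G) (κ : ℝ) (x y : G) (hxy : gp d w x y ≤ κ) :
    gp d w x 1 ≤ κ + δ ∨ gp d w y 1 ≤ κ + δ := by
  by_contra hcon
  push Not at hcon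
  have := hyp.hyp w x 1 y
  rw [gp_symm w 1 y hyp] at this
  have hm : κ + δ < min (gp d w x 1) (gp d w y 1) := lt_min hcon.1 hcon.2
  linarith

/-- cross ratio of four points from the ratio estimate -/
theorem cr_of_key (hyp : HypD G d δ) {f : G → Sph} (w : G) (κ M : ℝ) (hM : 0 ≤ M)
    (a b c e : G) (hac : f a ≠ f c) (hbe : f b ≠ f e)
    (key : ∀ x ∈ ({a, b, c, e} : Set G), ∀ y ∈ ({a, b, c, e} : Set G),
      ∀ z ∈ ({a, b, c, e} : Set G), x ≠ z → gp d w y 1 ≤ κ + δ → x ≠ y → y ≠ z →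
        dist (f x) (f y) ≤ M * dist (f x) (f z))
    (hD : D4 a b c e)
    (h1 : gp d w a b ≤ κ) (h2 : gp d w a c ≤ κ) (h4 : gp d w b c ≤ κ)
    (h5 : gp d w b e ≤ κ) (h6 : gp d w c e ≤ κ) :
    cr (f a) (f b) (f c) (f e) ≤ M * M := by
  have pac := dist_pos.2 hac
  have pbe := dist_pos.2 hbe
  have ia : a ∈ ({a, b, c, e} : Set G) := by simp
  have ib : b ∈ ({a, b, c, e} : Set G) := by simp
  have ic : c ∈ ({a, b, c, e} : Set G) := by simp
  have ie : e ∈ ({a, b, c, e} : Set G) := by simp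
  unfold cr
  rw [div_le_iff₀ (by positivity)]
  by_cases hbc : gp d w b 1 ≤ κ + δ ∧ gp d w c 1 ≤ κ + δ
  · have e1 := key a ia b ib c ic hD.2.1 hbc.1 hD.1 hD.2.2.2.1
    have e2 := key e ie c ic b ib hD.2.2.2.2.1.symm hbc.2 hD.2.2.2.2.2.symm hD.2.2.2.1.symm
    rw [dist_comm (f e) (f c), dist_comm (f e) (f b)] at e2
    calc dist (f a) (f b) * dist (f c) (f e)
        ≤ (M * dist (f a) (f c)) * (M * dist (f b) (f e)) :=
          mul_le_mul e1 e2 dist_nonneg (by positivity)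
      _ = M * M * (dist (f a) (f c) * dist (f b) (f e)) := by ring
  · have hae : gp d w a 1 ≤ κ + δ ∧ gp d w e 1 ≤ κ + δ := by
      by_cases hb1 : gp d w b 1 ≤ κ + δ
      · have hc1 : ¬ gp d w c 1 ≤ κ + δ := fun h => hbc ⟨hb1, h⟩
        exact ⟨(two_fwd hyp w κ a c h2).resolve_right hc1,
          (two_fwd hyp w κ c e h6).resolve_left hc1⟩
      · exact ⟨(two_fwd hyp w κ a b h1).resolve_right hb1,
          (two_fwd hyp w κ b e h5).resolve_left hb1⟩
    have e1 := key b ib a ia e ie hD.2.2.2.2.1 hae.1 hD.1.symm hD.2.2.1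
    have e2 := key c ic e ie a ia hD.2.1.symm hae.2 hD.2.2.2.2.2 hD.2.2.1.symm
    rw [dist_comm (f b) (f a)] at e1
    rw [dist_comm (f c) (f a)] at e2
    calc dist (f a) (f b) * dist (f c) (f e)
        ≤ (M * dist (f b) (f e)) * (M * dist (f a) (f c)) :=
          mul_le_mul e1 e2 dist_nonneg (by positivity)
      _ = M * M * (dist (f a) (f c) * dist (f b) (f e)) := by ring

/-- comparison along a chain -/
theorem chain_cmp {n : ℕ} {f : G → Sph} {N : ℝ} (hN : 0 ≤ N) (hyp : HypD G d δ)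
    (hf : ∀ a b c : G, d 1 a = n → d 1 b = n → d 1 c = n → a ≠ c →
      gp d 1 a c ≤ gp d 1 a b → dist (f a) (f b) ≤ N * dist (f a) (f c))
    (T : ℝ) (s : ℕ) (F : ℕ → G) (hF : ∀ t, d 1 (F t) = n)
    (hstep : ∀ t, t < s → T ≤ gp d 1 (F t) (F (t + 1))) (hT : T < n) (C : G) (hC : d 1 C = n)
    (hne : F 0 ≠ C) (hAC : gp d 1 (F 0) C ≤ T - δ) :
    ∀ t, t ≤ s → dist (f (F 0)) (f (F t)) ≤ N * (1 + N) ^ t * dist (f (F 0)) (f C) := by
  intro t
  induction t with
  | zero =>
    intro _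
    rw [dist_self]
    positivity
  | succ t ih =>
    intro ht
    have hi := ih (by omega)
    have hs := hstep t (by omega)
    have h1N : 1 ≤ (1 + N) ^ (t + 1) := one_le_pow₀ (by linarith)
    by_cases hc : gp d 1 (F t) (F 0) ≤ T
    · have hne' : F t ≠ F 0 := by
        intro h
        rw [h] at hc
        have : gp d 1 (F 0) (F 0) = n := by
          unfold gp
          rw [hyp.self, hF]
          ring
        linarith
      have h1 := hf (F t) (F (t + 1)) (F 0) (hF _) (hF _) (hF _) hne' (hc.trans hs)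
      have h2 := dist_triangle (f (F 0)) (f (F t)) (f (F (t + 1)))
      rw [dist_comm (f (F t)) (f (F 0))] at h1
      calc dist (f (F 0)) (f (F (t + 1)))
          ≤ (1 + N) * dist (f (F 0)) (f (F t)) := by linarith
        _ ≤ (1 + N) * (N * (1 + N) ^ t * dist (f (F 0)) (f C)) :=
            mul_le_mul_of_nonneg_left hi (by linarith)
        _ = N * (1 + N) ^ (t + 1) * dist (f (F 0)) (f C) := by ring
    · push Not at hc
      have h1 := hyp.hyp 1 (F 0) (F t) (F (t + 1))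
      rw [gp_symm 1 (F 0) (F t) hyp] at h1
      have h2 : T - δ ≤ gp d 1 (F 0) (F (t + 1)) :=
        le_trans (sub_le_sub_right (le_min hc.le hs) δ) h1
      have h3 := hf (F 0) (F (t + 1)) C (hF _) (hF _) hC hne (hAC.trans h2)
      calc dist (f (F 0)) (f (F (t + 1))) ≤ N * dist (f (F 0)) (f C) := h3
        _ ≤ N * (1 + N) ^ (t + 1) * dist (f (F 0)) (f C) := by
            apply mul_le_mul_of_nonneg_right _ dist_nonneg
            nlinarith

theorem gp_base_le (hyp : HypD G d δ) (w x y : G) : gp d 1 x y ≤ gp d w x y + d 1 w := by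
  unfold gp
  have t1 := hyp.tri 1 w x
  have t2 := hyp.tri 1 w y
  linarith

/-- gp of two approximations -/
theorem near_Z (hyp : HypD G d δ) {x y : ℕ → G} {A B : G} {T n : ℝ} (hxy : Near d T x y)
    (hA : ∃ M : ℕ, ∀ i, M ≤ i → n ≤ gp d 1 (x i) A) (hB : ∃ M : ℕ, ∀ i, M ≤ i → n ≤ gp d 1 (y i) B)
    (hn : T ≤ n) : T - 2 * δ ≤ gp d 1 A B := by
  obtain ⟨M, hM⟩ := hxy
  obtain ⟨M1, h1⟩ := hA
  obtain ⟨M2, h2⟩ := hB
  set i := max M (max M1 M2)
  have a0 := hM i i (le_max_left _ _) (le_max_left _ _)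
  have a1 := h1 i ((le_max_left _ _).trans (le_max_right _ _))
  have a2 := h2 i ((le_max_right _ _).trans (le_max_right _ _))
  have b1 := hyp.hyp 1 A (x i) (y i)
  rw [gp_symm 1 A (x i) hyp] at b1
  have b2 : T - δ ≤ gp d 1 A (y i) :=
    le_trans (sub_le_sub_right (le_min (hn.trans a1) a0) δ) b1
  have b3 := hyp.hyp 1 A (y i) B
  have hδ := hyp.nonneg
  have b4 : T - δ - δ ≤ gp d 1 A B :=
    le_trans (sub_le_sub_right (le_min b2 (by linarith)) δ) b3
  linarith

end

end Pool.Agent.Y320.ST
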