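import Pool.Agent.Y320.ST.Weak

set_option autoImplicit false
open Filter Topology MeasureTheory Metric Set

namespace Pool.Agent.Y320.ST
open Pool.Agent.Y320.CM

section
variable {G : Type} [Group G] {d : G → G → ℝ} {δ : ℝ}

theorem gp_w_le (hyp : HypD G d δ) (w x y : G) : gp d 1 x y - d 1 w ≤ gp d w x y := by
  unfold gp
  have t1 := hyp.tri 1 w x
  have t2 := hyp.tri 1 w y
  linarith

theorem key_weak (hyp : HypD G d δ) {φ : (ℕ → G) → Sph} (hφ : Bd d φ) (X : Sph → ℕ → G)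
    (hXc : ∀ p, CI d (X p)) (hXφ : ∀ p, φ (X p) = p) (Z : Sph → ℕ → G)
    (hZ1 : ∀ p t, d 1 (Z p t) = (t : ℝ))
    (hZ2 : ∀ p (t : ℕ), ∃ M : ℕ, ∀ i, M ≤ i → (t : ℝ) - δ ≤ gp d 1 (X p i) (Z p t))
    (κ : ℝ) (hκ : 0 ≤ κ) (s : ℕ)
    (hs : ∀ (w : G) (x y : ℕ → G),
      CI d x → CI d y → (∀ᶠ i in atTop, gp d w (x i) 1 ≤ 3 * κ + 3 * δ) →
      (∀ᶠ i in atTop, gp d w (y i) 1 ≤ 3 * κ + 3 * δ) →
      ∃ z : ℕ → ℕ → G, z 0 = x ∧ z s = y ∧ (∀ t, CI d (z t)) ∧
        ∀ t, t < s → Near d (d 1 w + (κ + 5 * δ)) (z t) (z (t + 1)))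
    (w : G) (n : ℕ) (hn : d 1 w + 4 * κ + 10 * δ < n) {f : G → Sph} {N : ℝ} (hN : 0 ≤ N)
    (hf : ∀ a b c : G, d 1 a = n → d 1 b = n → d 1 c = n → a ≠ c →
      gp d 1 a c ≤ gp d 1 a b → dist (f a) (f b) ≤ N * dist (f a) (f c))
    (p q r : Sph) (hne : Z p n ≠ Z r n) (hAC : gp d w (Z p n) (Z r n) ≤ κ)
    (hB : gp d w (Z q n) 1 ≤ κ + δ) :
    dist (f (Z p n)) (f (Z q n)) ≤ (1 + N) ^ (s + 1) * dist (f (Z p n)) (f (Z r n)) := by
  have hδ := hyp.nonneg
  have hpow : ∀ k : ℕ, 1 ≤ (1 + N) ^ k := fun k => one_le_pow₀ (by linarith)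
  have fwd : ∀ u : Sph, gp d w (Z u n) 1 ≤ 3 * κ + 2 * δ →
      ∀ᶠ i in atTop, gp d w (X u i) 1 ≤ 3 * κ + 3 * δ := by
    intro u hu
    obtain ⟨M, hM⟩ := hZ2 u n
    filter_upwards [eventually_ge_atTop M] with i hi
    have h1 := hM i hi
    have h2 := gp_w_le hyp w (X u i) (Z u n)
    by_contra hcon
    push Not at hcon
    have h3 := hyp.hyp w (Z u n) (X u i) 1
    rw [gp_symm w (Z u n) (X u i) hyp] at h3
    have h4 : 3 * κ + 3 * δ < min (gp d w (X u i) (Z u n)) (gp d w (X u i) 1) :=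
      lt_min (by linarith) hcon
    linarith
  by_cases hA : gp d w (Z p n) 1 ≤ 3 * κ + 2 * δ
  · obtain ⟨z, hz0, hzs, hzc, hzn⟩ := hs w (X p) (X q) (hXc p) (hXc q) (fwd p hA)
      (fwd q (by linarith))
    have happ : ∀ t, ∃ M : ℕ, ∀ i, M ≤ i → (n : ℝ) - 2 * δ ≤ gp d 1 (z t i) (Z (φ (z t)) n) := by
      intro t
      obtain ⟨M1, h1⟩ := (hφ.eqv (z t) (X (φ (z t))) (hzc t) (hXc _)).1 (hXφ _).symm (n - δ)
      obtain ⟨M2, h2⟩ := hZ2 (φ (z t)) n
      refine ⟨max M1 M2, fun i hi => ?_⟩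
      have a1 := h1 i i ((le_max_left _ _).trans hi) ((le_max_left _ _).trans hi)
      have a2 := h2 i ((le_max_right _ _).trans hi)
      have a3 := hyp.hyp 1 (z t i) (X (φ (z t)) i) (Z (φ (z t)) n)
      have a4 : (n : ℝ) - δ - δ ≤ gp d 1 (z t i) (Z (φ (z t)) n) :=
        le_trans (sub_le_sub_right (le_min a1 a2) δ) a3
      linarith
    have h0 : Z (φ (z 0)) n = Z p n := by rw [hz0, hXφ]
    have hs' : Z (φ (z s)) n = Z q n := by rw [hzs, hXφ]
    have := chain_cmp (n := n) hN hyp hf (d 1 w + κ + 3 * δ) s (fun t => Z (φ (z t)) n)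
      (fun t => hZ1 _ _) (fun t ht => by
        have := near_Z hyp (hzn t ht) (happ t) (happ (t + 1)) (by linarith)
        linarith) (by linarith) (Z r n) (hZ1 _ _) (by rw [h0]; exact hne)
      (by
        rw [h0]
        have := gp_base_le hyp w (Z p n) (Z r n)
        linarith) s le_rfl
    simp only [h0, hs'] at this
    refine this.trans (mul_le_mul_of_nonneg_right ?_ dist_nonneg)
    rw [pow_succ]
    have := hpow s
    nlinarith
  · push Not at hA
    have h1 : gp d 1 (Z r n) (Z p n) ≤ gp d 1 (Z r n) (Z q n) := by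
      rw [gp_base w (Z r n) (Z p n) hyp, gp_base w (Z r n) (Z q n) hyp]
      rw [gp_symm w (Z r n) (Z p n) hyp]
      have := gp_nonneg w (Z r n) (Z q n) hyp
      linarith
    have h2 := hf (Z r n) (Z q n) (Z p n) (hZ1 _ _) (hZ1 _ _) (hZ1 _ _) hne.symm h1
    have h3 := dist_triangle (f (Z p n)) (f (Z r n)) (f (Z q n))
    rw [dist_comm (f (Z r n)) (f (Z p n))] at h2
    calc dist (f (Z p n)) (f (Z q n)) ≤ (1 + N) * dist (f (Z p n)) (f (Z r n)) := by linarith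
      _ ≤ (1 + N) ^ (s + 1) * dist (f (Z p n)) (f (Z r n)) := by
          apply mul_le_mul_of_nonneg_right _ dist_nonneg
          rw [pow_succ]
          have := hpow s
          nlinarith

/-- weak placements bound the finite configurations of the boundary -/
theorem finB_of_weak (hL : S_LINK) (hyp : HypD G d δ) {φ : (ℕ → G) → Sph} (hφ : Bd d φ)
    {τ : G → Sph → Sph} (hτ : Eqv d φ τ) (h : WeakPlacements d) :
    ∃ N', FinB τ Set.univ N' := by
  obtain ⟨N0, hN0⟩ := h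
  set N : ℝ := max N0 0 with hNdef
  have hNn : 0 ≤ N := le_max_right _ _
  have hN : ∀ m : ℕ, ∃ n : ℕ, m ≤ n ∧ ∃ f : G → Sph, Set.InjOn f {g | d 1 g = n} ∧
    ∀ a b c : G, d 1 a = n → d 1 b = n → d 1 c = n → a ≠ c →
      gp d 1 a c ≤ gp d 1 a b → dist (f a) (f b) ≤ N * dist (f a) (f c) := by
    intro m
    obtain ⟨n, hn, f, hi, hf⟩ := hN0 m
    refine ⟨n, hn, f, hi, fun a b c ha hb hc hac hle => (hf a b c ha hb hc hac hle).trans ?_⟩
    exact mul_le_mul_of_nonneg_right (le_max_left _ _) dist_nonneg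
  have hδ := hyp.nonneg
  have hRay := Pool.Agent.Y587.CM.t_RAY
  have hACT := Pool.Agent.Y37.CM.t_ACTC G d δ φ τ hyp hφ hτ
  -- representatives and points on the spheres
  choose X hXc hXφ using hφ.surj
  choose Z hZ1 hZ2 using fun p => hRay G d δ hyp (X p) (hXc p)
  have hK : ∀ m : ℕ, ∃ K : ℝ, ∀ x y : ℕ → G, CI d x → CI d y →
      1 / ((m : ℝ) + 1) ≤ dist (φ x) (φ y) →
      ∃ M : ℕ, ∀ i j, M ≤ i → M ≤ j → gp d 1 (x i) (y j) ≤ K := fun m =>
    gp_bound hyp hφ _ (by positivity)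
  choose K hK using hK
  -- the main estimate
  have main : ∀ (m n : ℕ) (g : G) (p q : Sph), 1 / ((m : ℝ) + 1) ≤ dist (τ g p) (τ g q) →
      K m + 3 * δ + d 1 g < n → gp d 1 (g * Z p n) (g * Z q n) ≤ K m + 2 * δ := by
    intro m n g p q hpq hn
    have hgx := hACT.1 g (X p) (hXc p)
    have hgy := hACT.1 g (X q) (hXc q)
    have e1 : φ (fun i => g * X p i) = τ g p := by rw [← hτ g (X p) (hXc p), hXφ]
    have e2 : φ (fun i => g * X q i) = τ g q := by rw [← hτ g (X q) (hXc q), hXφ]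
    obtain ⟨M, hM⟩ := hK m _ _ hgx hgy (by rw [e1, e2]; exact hpq)
    obtain ⟨M1, h1⟩ := hZ2 p n
    obtain ⟨M2, h2⟩ := hZ2 q n
    set i := max M (max M1 M2) with hi
    have a0 := hM i i (le_max_left _ _) (le_max_left _ _)
    have a1 := h1 i ((le_max_left _ _).trans (le_max_right _ _))
    have a2 := h2 i ((le_max_right _ _).trans (le_max_right _ _))
    have b1 := gp_le_of_base hyp g (X p i) (Z p n)
    have b2 := gp_le_of_base hyp g (X q i) (Z q n)
    by_contra hcon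
    push Not at hcon
    have c1 := hyp.hyp 1 (g * Z p n) (g * Z q n) (g * X q i)
    rw [gp_symm 1 (g * Z q n) (g * X q i) hyp] at c1
    have c2 : K m + δ < gp d 1 (g * Z p n) (g * X q i) := by
      have : K m + 2 * δ < min (gp d 1 (g * Z p n) (g * Z q n))
          (gp d 1 (g * X q i) (g * Z q n)) := lt_min hcon (by linarith)
      linarith
    have c3 := hyp.hyp 1 (g * X p i) (g * Z p n) (g * X q i)
    have c4 : K m < gp d 1 (g * X p i) (g * X q i) := by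
      have : K m + δ < min (gp d 1 (g * X p i) (g * Z p n))
          (gp d 1 (g * Z p n) (g * X q i)) := lt_min (by linarith) c2
      linarith
    linarith
  -- chains
  set κ : ℕ → ℝ := fun m => max (K m) 0 + 2 * δ with hκdef
  have hκ0 : ∀ m, 0 ≤ κ m := fun m => by
    have := le_max_right (K m) 0
    simp only [hκdef]
    linarith
  have hκK : ∀ m, K m + 2 * δ ≤ κ m := fun m => by
    have := le_max_left (K m) 0
    simp only [hκdef]
    linarith
  choose s hs using fun m : ℕ => hL G d δ φ τ hyp hφ hτ (3 * κ m + 3 * δ) (κ m + 5 * δ)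
  -- the bound
  refine ⟨fun ε => (1 + N) ^ (s ⌈1 / ε⌉₊ + 1) * (1 + N) ^ (s ⌈1 / ε⌉₊ + 1), ?_⟩
  intro P _ H η hη
  classical
  -- the radius
  obtain ⟨η', hη', hPd⟩ : ∃ η' : ℝ, 0 < η' ∧ ∀ p ∈ P, ∀ q ∈ P, p ≠ q → η' ≤ dist p q := by
    have : ∀ Q : Finset (Sph × Sph), ∃ η' : ℝ, 0 < η' ∧ ∀ r ∈ Q, r.1 ≠ r.2 → η' ≤ dist r.1 r.2 := by
      intro Q
      induction Q using Finset.induction_on with
      | empty => exact ⟨1, one_pos, by simp⟩
      | insert r Q _ ih =>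
        obtain ⟨η', h1, h2⟩ := ih
        by_cases hr : r.1 = r.2
        · refine ⟨η', h1, fun s hs hne => ?_⟩
          rcases Finset.mem_insert.1 hs with rfl | hs
          · exact absurd hr hne
          · exact h2 s hs hne
        · refine ⟨min η' (dist r.1 r.2), lt_min h1 (dist_pos.2 hr), fun s hs hne => ?_⟩
          rcases Finset.mem_insert.1 hs with rfl | hs
          · exact min_le_right _ _
          · exact (min_le_left _ _).trans (h2 s hs hne)
    obtain ⟨η', h1, h2⟩ := this (P ×ˢ P)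
    exact ⟨η', h1, fun p hp q hq hne => h2 (p, q) (Finset.mem_product.2 ⟨hp, hq⟩) hne⟩
  set m0 : ℕ := max ⌈1 / η⌉₊ ⌈1 / η'⌉₊ with hm0
  obtain ⟨R, hR⟩ : ∃ R : ℝ, ∀ m ≤ m0, ∀ g ∈ insert 1 H, 4 * κ m + 10 * δ + d 1 g < R := by
    have hfin : (((Finset.range (m0 + 1)) ×ˢ (insert 1 H)).image
        (fun r : ℕ × G => 4 * κ r.1 + 10 * δ + d 1 r.2)).Nonempty :=
      Finset.Nonempty.image (Finset.Nonempty.product (by simp) (by simp)) _
    refine ⟨(((Finset.range (m0 + 1)) ×ˢ (insert 1 H)).image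
        (fun r : ℕ × G => 4 * κ r.1 + 10 * δ + d 1 r.2)).max' hfin + 1, fun m hm g hg => ?_⟩
    have := Finset.le_max' (((Finset.range (m0 + 1)) ×ˢ (insert 1 H)).image
        (fun r : ℕ × G => 4 * κ r.1 + 10 * δ + d 1 r.2)) (4 * κ m + 10 * δ + d 1 g)
      (Finset.mem_image.2 ⟨(m, g),
        Finset.mem_product.2 ⟨Finset.mem_range.2 (Nat.lt_add_one_of_le hm), hg⟩, rfl⟩)
    linarith
  have hKR : ∀ m ≤ m0, ∀ g ∈ insert 1 H, K m + 3 * δ + d 1 g < R := by
    intro m hm g hg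
    have h1 := hR m hm g hg
    have h2 := hκK m
    have h3 := hκ0 m
    linarith
  obtain ⟨n, hn, f, hinj, hf⟩ := hN ⌈R⌉₊
  have hRn : R ≤ n := (Nat.le_ceil R).trans (by exact_mod_cast hn)
  have hceil : ∀ ε : ℝ, 0 < ε → 1 / ((⌈1 / ε⌉₊ : ℝ) + 1) ≤ ε := by
    intro ε hε
    have h1 := Nat.le_ceil (1 / ε)
    rw [div_le_iff₀ (by positivity)]
    rw [div_le_iff₀ hε] at h1
    nlinarith
  -- different points
  have hdist : ∀ p ∈ P, ∀ q ∈ P, p ≠ q → Z p n ≠ Z q n := by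
    intro p hp q hq hpq heq
    have h1 := hPd p hp q hq hpq
    have h2 := main ⌈1 / η'⌉₊ n 1 p q (by
      rw [hACT.2.1, hACT.2.1]
      exact (hceil η' hη').trans h1)
      (lt_of_lt_of_le (hKR _ (le_max_right _ _) 1 (by simp)) hRn)
    rw [one_mul, one_mul, ← heq] at h2
    have h3 : gp d 1 (Z p n) (Z p n) = n := by
      unfold gp
      rw [hyp.self, hZ1]
      ring
    have h4 := hKR _ (le_max_right ⌈1 / η⌉₊ ⌈1 / η'⌉₊) 1 (by simp)
    rw [hyp.self] at h4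
    linarith
  refine ⟨fun p => f (Z p n), ?_, ?_⟩
  · intro p hp q hq hpq
    by_contra hne
    exact hdist p hp q hq hne (hinj (hZ1 p n) (hZ1 q n) hpq)
  · intro g hg ε hε a ha b hb c hc e he s1 s2 s3 s4 s5 s6
    have hε0 : 0 < ε := hη.trans_le hε
    have hm : ⌈1 / ε⌉₊ ≤ m0 :=
      (Nat.ceil_le_ceil (one_div_le_one_div_of_le hη hε)).trans (le_max_left _ _)
    set m := ⌈1 / ε⌉₊ with hmdef
    have hn' : K m + 3 * δ + d 1 g < n :=
      lt_of_lt_of_le (hKR _ hm g (by simp [hg])) hRn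
    have hginv : d 1 g⁻¹ = d 1 g := by
      rw [← hyp.left g 1 g⁻¹, mul_one, mul_inv_cancel, hyp.symm]
    have hn'' : d 1 g⁻¹ + 4 * κ m + 10 * δ < n := by
      have := lt_of_lt_of_le (hR _ hm g (by simp [hg])) hRn
      rw [hginv]
      linarith
    have hne : ∀ {x y : Sph}, ε ≤ dist (τ g x) (τ g y) → x ≠ y := by
      rintro x y hxy rfl
      rw [dist_self] at hxy
      linarith
    have gm : ∀ p q : Sph, ε ≤ dist (τ g p) (τ g q) →
        gp d g⁻¹ (Z p n) (Z q n) ≤ κ m := by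
      intro p q hpq
      have h1 := main m n g p q ((hceil ε hε0).trans hpq) hn'
      have e1 : gp d g⁻¹ (Z p n) (Z q n) = gp d 1 (g * Z p n) (g * Z q n) := by
        unfold gp
        have e1 : d (g * Z p n) (g * Z q n) = d (Z p n) (Z q n) := hyp.left g _ _
        have e2 : d 1 (g * Z p n) = d g⁻¹ (Z p n) := by
          rw [← hyp.left g⁻¹ 1 (g * Z p n), mul_one, inv_mul_cancel_left]
        have e3 : d 1 (g * Z q n) = d g⁻¹ (Z q n) := by
          rw [← hyp.left g⁻¹ 1 (g * Z q n), mul_one, inv_mul_cancel_left]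
        rw [e1, e2, e3]
      rw [e1]
      exact h1.trans (hκK m)
    have hD : D4 (Z a n) (Z b n) (Z c n) (Z e n) :=
      ⟨hdist a ha b hb (hne s1), hdist a ha c hc (hne s2), hdist a ha e he (hne s3),
        hdist b hb c hc (hne s4), hdist b hb e he (hne s5), hdist c hc e he (hne s6)⟩
    have gall : ∀ x ∈ ({a, b, c, e} : Set Sph), ∀ z ∈ ({a, b, c, e} : Set Sph), Z x n ≠ Z z n →
        gp d g⁻¹ (Z x n) (Z z n) ≤ κ m := by
      intro x hx z hz hxz
      simp only [Set.mem_insert_iff, Set.mem_singleton_iff] at hx hz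
      have sw : ∀ u v : Sph, gp d g⁻¹ (Z u n) (Z v n) ≤ κ m → gp d g⁻¹ (Z v n) (Z u n) ≤ κ m := by
        intro u v huv
        rw [gp_symm _ _ _ hyp]
        exact huv
      rcases hx with rfl | rfl | rfl | rfl <;> rcases hz with rfl | rfl | rfl | rfl
      · exact absurd rfl hxz
      · exact gm _ _ s1
      · exact gm _ _ s2
      · exact gm _ _ s3
      · exact sw _ _ (gm _ _ s1)
      · exact absurd rfl hxz
      · exact gm _ _ s4
      · exact gm _ _ s5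
      · exact sw _ _ (gm _ _ s2)
      · exact sw _ _ (gm _ _ s4)
      · exact absurd rfl hxz
      · exact gm _ _ s6
      · exact sw _ _ (gm _ _ s3)
      · exact sw _ _ (gm _ _ s5)
      · exact sw _ _ (gm _ _ s6)
      · exact absurd rfl hxz
    have key : ∀ x ∈ ({a, b, c, e} : Set Sph), ∀ y ∈ ({a, b, c, e} : Set Sph),
        ∀ z ∈ ({a, b, c, e} : Set Sph), Z x n ≠ Z z n → gp d g⁻¹ (Z y n) 1 ≤ κ m + δ →
        dist (f (Z x n)) (f (Z y n)) ≤ (1 + N) ^ (s m + 1) * dist (f (Z x n)) (f (Z z n)) := by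
      intro x hx y _ z hz hxz hy
      exact key_weak hyp hφ X hXc hXφ Z hZ1 hZ2 (κ m) (hκ0 m) (s m) (hs m) g⁻¹ n hn'' hNn hf x y z
        hxz (gall x hx z hz hxz) hy
    refine cr_of_key hyp g⁻¹ (κ m) ((1 + N) ^ (s m + 1)) (by positivity) (Z a n) (Z b n) (Z c n)
      (Z e n) (fun h => hD.2.1 (hinj (hZ1 a n) (hZ1 c n) h))
      (fun h => hD.2.2.2.2.1 (hinj (hZ1 b n) (hZ1 e n) h)) ?_ hD (gm a b s1) (gm a c s2)
      (gm b c s4) (gm b e s5) (gm c e s6)
    intro x hx y hy z hz hxz hyf _ _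
    have lift : ∀ u ∈ ({Z a n, Z b n, Z c n, Z e n} : Set G), ∃ v ∈ ({a, b, c, e} : Set Sph),
        Z v n = u := by
      intro u hu
      simp only [Set.mem_insert_iff, Set.mem_singleton_iff] at hu
      rcases hu with rfl | rfl | rfl | rfl
      · exact ⟨a, by simp, rfl⟩
      · exact ⟨b, by simp, rfl⟩
      · exact ⟨c, by simp, rfl⟩
      · exact ⟨e, by simp, rfl⟩
    obtain ⟨x', hx', rfl⟩ := lift x hx
    obtain ⟨y', hy', rfl⟩ := lift y hy
    obtain ⟨z', hz', rfl⟩ := lift z hz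
    exact key x' hx' y' hy' z' hz' hxz hyf

end

end Pool.Agent.Y320.ST
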